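import Pool.Agent.Helper1.KU.Walks
import Pool.Agent.Helper19.KU.Words
import Pool.Agent.H29.KU.Online

/-!
# Assembly of the lower bound
-/

set_option linter.unusedVariables false

namespace Pool.Agent.Helper1.KU

open Finset

/-! ### Lengths -/

theorem length_low_le {R : ℕ} {P : Fin R → Type} (U : ∀ j, (P j → Bool) → List Cmd)
    (X : ∀ j, P j → Bool) (M : ℕ) : ∀ i, (∀ i' < i, (uw U X i').length ≤ M) →
      (low U X i).length ≤ i * M := by
  intro i
  induction i with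
  | zero => intro _; simp [low]
  | succ i ih =>
    intro h
    rw [low_succ, List.length_append]
    have h1 := ih fun i' hi' => h i' (by omega)
    have h2 := h i (by omega)
    rw [Nat.succ_mul]; omega

/-! ### Numerical facts -/

theorem num_n1 {Γ u₁ k E e E₀ B₂ Gh : ℕ} (he : E₀ ≤ e) (heE : e ≤ E)
    (h1 : 16 * Γ * u₁ ≤ 2 ^ k) (h2 : 16 * Γ * 2 ^ k * B₂ ^ 2 * Gh ≤ 2 ^ E₀) :
    8 * (Γ * (2 ^ (E + E) * u₁ + 2 ^ k * (2 ^ (2 * (E - e)) *
      ((B₂ * Gh) * (2 ^ (k + e) * B₂))))) ≤ 2 ^ (k + e) * 2 ^ (E + E - e) := by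
  have e1 : (2 : ℕ) ^ (k + e) * 2 ^ (E + E - e) = 2 ^ k * 2 ^ (E + E) := by
    rw [← pow_add, ← pow_add]; congr 1; omega
  have e2 : (2 : ℕ) ^ (2 * (E - e)) * 2 ^ (k + e) * 2 ^ e = 2 ^ k * 2 ^ (E + E) := by
    rw [← pow_add, ← pow_add, ← pow_add]; congr 1; omega
  have h3 : 16 * Γ * 2 ^ k * B₂ ^ 2 * Gh ≤ 2 ^ e := h2.trans (Nat.pow_le_pow_right (by norm_num) he)
  have h4 : 16 * (Γ * (2 ^ (E + E) * u₁)) ≤ 2 ^ k * 2 ^ (E + E) := by
    calc _ = 16 * Γ * u₁ * 2 ^ (E + E) := by ring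
      _ ≤ _ := Nat.mul_le_mul_right _ h1
  have h5 : 16 * (Γ * (2 ^ k * (2 ^ (2 * (E - e)) * ((B₂ * Gh) * (2 ^ (k + e) * B₂))))) ≤
      2 ^ k * 2 ^ (E + E) := by
    calc _ = (2 ^ (2 * (E - e)) * 2 ^ (k + e)) * (16 * Γ * 2 ^ k * B₂ ^ 2 * Gh) := by ring
      _ ≤ (2 ^ (2 * (E - e)) * 2 ^ (k + e)) * 2 ^ e := Nat.mul_le_mul_left _ h3
      _ = _ := e2
  rw [e1]
  rw [mul_add]
  omega

theorem num_n12 {w c₁ ℓ n k e E₀ g κt u₁ : ℕ} (hk : 7 ≤ k) (hkE : k ≤ E₀) (hg : g ≤ k)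
    (he : E₀ ≤ e)
    (h1 : 2 ^ 7 * (κt * (u₁ * w)) ≤ 2 ^ k)
    (h2 : 2 ^ 12 * (w * (c₁ * 2 ^ ℓ)) ≤ 2 ^ E₀)
    (h3 : n + 4 ≤ 2 ^ k) (h4 : 2 ^ 12 * w ≤ 2 ^ g) (h5 : 8 * (w + 6) ≤ 2 ^ (k - 7)) :
    8 * (w * (1 + (c₁ * (2 ^ ℓ * (n + 4 + 3 * 2 ^ (k + e - E₀))) + 2 ^ (e - 3) * κt * u₁ +
      2 ^ (k + e - g)) + 2 ^ (k + e - g) + 2 ^ (k + e - g)) + 6) ≤ 2 ^ (k + e - 5) := by
  set Q := 2 ^ (k + e - 7) with hQ
  have q1 : 2 ^ (k + e - 5) = 4 * Q := by
    rw [hQ, show k + e - 5 = (k + e - 7) + 2 by omega, pow_add]; ring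
  have a1 : 8 * (w + 6) ≤ Q := h5.trans (Nat.pow_le_pow_right (by norm_num) (by omega))
  have a2 : 8 * (w * (c₁ * (2 ^ ℓ * (n + 4 + 3 * 2 ^ (k + e - E₀))))) ≤ Q := by
    have b1 : n + 4 + 3 * 2 ^ (k + e - E₀) ≤ 4 * 2 ^ (k + e - E₀) := by
      have : 2 ^ k ≤ 2 ^ (k + e - E₀) := Nat.pow_le_pow_right (by norm_num) (by omega)
      omega
    have b2 : 2 ^ 7 * Q = 2 ^ (k + e - E₀) * 2 ^ E₀ := by
      rw [hQ, ← pow_add, ← pow_add]; congr 1; omega
    have b3 : 2 ^ 7 * (8 * (w * (c₁ * (2 ^ ℓ * (n + 4 + 3 * 2 ^ (k + e - E₀)))))) ≤ 2 ^ 7 * Q := by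
      rw [b2]
      calc 2 ^ 7 * (8 * (w * (c₁ * (2 ^ ℓ * (n + 4 + 3 * 2 ^ (k + e - E₀))))))
          ≤ 2 ^ 7 * (8 * (w * (c₁ * (2 ^ ℓ * (4 * 2 ^ (k + e - E₀)))))) := by
            gcongr
        _ = 2 ^ (k + e - E₀) * (2 ^ 12 * (w * (c₁ * 2 ^ ℓ))) := by ring
        _ ≤ _ := Nat.mul_le_mul_left _ h2
    exact Nat.le_of_mul_le_mul_left b3 (by norm_num)
  have a3 : 8 * (w * (2 ^ (e - 3) * κt * u₁)) ≤ Q := by
    have b2 : 2 ^ 7 * Q = 2 ^ e * 2 ^ k := by
      rw [hQ, ← pow_add, ← pow_add]; congr 1; omega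
    have b4 : 8 * 2 ^ (e - 3) = 2 ^ e := by
      rw [show e = (e - 3) + 3 by omega, pow_add, Nat.add_sub_cancel]; ring
    have b3 : 2 ^ 7 * (8 * (w * (2 ^ (e - 3) * κt * u₁))) ≤ 2 ^ 7 * Q := by
      rw [b2]
      calc _ = (8 * 2 ^ (e - 3)) * (2 ^ 7 * (κt * (u₁ * w))) := by ring
        _ = 2 ^ e * (2 ^ 7 * (κt * (u₁ * w))) := by rw [b4]
        _ ≤ _ := Nat.mul_le_mul_left _ h1
    exact Nat.le_of_mul_le_mul_left b3 (by norm_num)
  have a4 : 32 * (w * 2 ^ (k + e - g)) ≤ Q := by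
    have b2 : 2 ^ 7 * Q = 2 ^ (k + e - g) * 2 ^ g := by
      rw [hQ, ← pow_add, ← pow_add]; congr 1; omega
    have b3 : 2 ^ 7 * (32 * (w * 2 ^ (k + e - g))) ≤ 2 ^ 7 * Q := by
      rw [b2]
      calc _ = 2 ^ (k + e - g) * (2 ^ 12 * w) := by ring
        _ ≤ _ := Nat.mul_le_mul_left _ h4
    exact Nat.le_of_mul_le_mul_left b3 (by norm_num)
  rw [q1]
  have e1 : 8 * (w * (1 + (c₁ * (2 ^ ℓ * (n + 4 + 3 * 2 ^ (k + e - E₀))) +
      2 ^ (e - 3) * κt * u₁ + 2 ^ (k + e - g)) + 2 ^ (k + e - g) + 2 ^ (k + e - g)) + 6) =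
      8 * (w + 6) + 8 * (w * (c₁ * (2 ^ ℓ * (n + 4 + 3 * 2 ^ (k + e - E₀))))) +
      8 * (w * (2 ^ (e - 3) * κt * u₁)) + 24 * (w * 2 ^ (k + e - g)) := by ring
  rw [e1]
  omega

/-! ### The main argument -/

theorem assembly (K : KUM) (F c₁ : ℕ) (hF : F ≠ 0) (hc1 : 1 ≤ c₁)
    (hon : ∀ (w : List Cmd) (g : Cmd),
      (cmdRun K F g (wordRun K F w (micInit K))).bit = some (lastOut (w ++ [g])))
    (hc : ∀ (w : List Cmd) (c : Mic K.D K.n), (wordVis K F w c).card ≤ c₁ * w.length ∧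
      (wordRun K F w c).size ≤ c.size + c₁ * w.length)
    {ℓ k E₀ w g κ₀ E n t κ Γ Gh u₁ B₂ N : ℕ}
    (hE : E = E₀ * 2 ^ ℓ) (hn : n = E + E + k + ℓ) (ht : t = c₁ * (ℓ + 1)) (hκ : κ = 2 ^ κ₀)
    (hΓ : Γ = 2 * t * κ ^ t) (hGh : Gh = Γ * t * 2 ^ g) (hu₁ : u₁ = c₁ * (E + E + 1))
    (hB₂ : B₂ = (K.D + 1) ^ ((K.r + 1) * F * (k + (ℓ + 1))))
    (hN : N = 1 + c₁ * (64 * (2 ^ (n + 1) + 2 ^ ℓ * 2 ^ (k + E)) ^ 2 +
      2 ^ ℓ * (n + 4 + 3 * 2 ^ (k + E))))
    (p1 : 100 * (c₁ * k) ≤ 2 ^ ℓ) (p2 : 7 ≤ k) (p3 : k ≤ E₀) (p4 : g ≤ k)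
    (p5 : 800 * c₁ * 2 ^ g ≤ κ) (p6 : 16 * Γ * u₁ ≤ 2 ^ k)
    (p7 : 2 ^ 7 * (κ ^ t * (u₁ * w)) ≤ 2 ^ k)
    (p8 : 16 * Γ * 2 ^ k * B₂ ^ 2 * Gh ≤ 2 ^ E₀)
    (p9 : 2 ^ 12 * (w * (c₁ * 2 ^ ℓ)) ≤ 2 ^ E₀)
    (p10 : 2 * κ ^ t ≤ 2 ^ E) (p11 : n + 4 ≤ 2 ^ k) (p12 : 2 ^ 12 * w ≤ 2 ^ g)
    (p13 : 8 * (w + 6) ≤ 2 ^ (k - 7))
    (p14 : K.n * (N * (N + 1)) ≤ 2 ^ w) (p15 : N * (N * K.D + 1) ^ K.D + 1 ≤ 2 ^ w)
    (line : (Fin (E + E) → Bool) → (Fin k → Bool) → (Fin E → Bool))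
    (hline : ∀ (e : ℕ) (he : e ≤ E),
        (∀ (a : Fin k → Bool) (b : Fin e → Bool),
          (univ.filter fun v => (fun i : Fin e => line v a (Fin.castLE he i)) = b).card =
            2 ^ (E + E - e)) ∧
        (∀ a a' : Fin k → Bool, a ≠ a' → ∀ b b' : Fin e → Bool,
          (univ.filter fun v => (fun i : Fin e => line v a (Fin.castLE he i)) = b ∧
            (fun i : Fin e => line v a' (Fin.castLE he i)) = b').card ≤ 2 ^ (2 * (E - e)))) :
    False := by
  classical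
  have h2ℓ : 0 < 2 ^ ℓ := by positivity
  -- classes
  let ex : Fin (2 ^ ℓ) → ℕ := fun j => E₀ * (j + 1)
  have hex : ∀ j, ex j ≤ E := fun j => by
    rw [hE]; exact Nat.mul_le_mul_left _ j.2
  have hex0 : ∀ j, E₀ ≤ ex j := fun j => Nat.le_mul_of_pos_right _ (Nat.succ_pos _)
  let P : Fin (2 ^ ℓ) → Type := fun j => (Fin k → Bool) × (Fin (ex j) → Bool)
  have hcardP : ∀ j, Fintype.card (P j) = 2 ^ (k + ex j) := by
    intro j
    simp [P, pow_add]
  let fj : ∀ j, ((Fin (E + E) → Bool) × (Fin k → Bool)) → P j := fun j l =>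
    (l.2, fun i => line l.1 l.2 (Fin.castLE (hex j) i))
  let jidx : (Fin ℓ → Bool) ≃ Fin (2 ^ ℓ) := Fintype.equivFinOfCardEq (by simp)
  let T : (Fin (E + E) → Bool) → (Fin k → Bool) → (Fin ℓ → Bool) → Σ j, P j := fun v a b =>
    ⟨jidx b, fj (jidx b) (v, a)⟩
  have hT : ∀ v a j, T v a (jidx.symm j) = ⟨j, fj j (v, a)⟩ := by
    intro v a j
    show (⟨jidx (jidx.symm j), fj (jidx (jidx.symm j)) (v, a)⟩ : Σ j, P j) = _
    rw [jidx.apply_symm_apply]
  let target : (Fin (E + E + k + ℓ) → Bool) → Σ j, P j := fun p =>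
    T (fun i => p (Fin.castAdd ℓ (Fin.castAdd k i)))
      (fun i => p (Fin.castAdd ℓ (Fin.natAdd (E + E) i)))
      (fun i => p (Fin.natAdd (E + E + k) i))
  have htarget : ∀ (v : Fin (E + E) → Bool) (a : Fin k → Bool) (j : Fin (2 ^ ℓ)),
      target (Fin.append (Fin.append v a) (jidx.symm j)) = ⟨j, fj j (v, a)⟩ := by
    intro v a j
    have e1 : (fun i => Fin.append (Fin.append v a) (jidx.symm j) (Fin.natAdd (E + E + k) i)) =
        jidx.symm j := by
      funext i; rw [Fin.append_right]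
    have e2 : (fun i => Fin.append (Fin.append v a) (jidx.symm j)
        (Fin.castAdd ℓ (Fin.castAdd k i))) = v := by
      funext i; rw [Fin.append_left, Fin.append_left]
    have e3 : (fun i => Fin.append (Fin.append v a) (jidx.symm j)
        (Fin.castAdd ℓ (Fin.natAdd (E + E) i))) = a := by
      funext i; rw [Fin.append_left, Fin.append_right]
    show T (fun i => Fin.append (Fin.append v a) (jidx.symm j)
        (Fin.castAdd ℓ (Fin.castAdd k i))) (fun i => Fin.append (Fin.append v a) (jidx.symm j)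
        (Fin.castAdd ℓ (Fin.natAdd (E + E) i)))
        (fun i => Fin.append (Fin.append v a) (jidx.symm j) (Fin.natAdd (E + E + k) i)) = _
    rw [e1, e2, e3, hT]
  have hsurj : ∀ j, ∃ p, (target p).1 = j := fun j =>
    ⟨Fin.append (Fin.append (fun _ => false) (fun _ => false)) (jidx.symm j), by
      rw [htarget]⟩
  obtain ⟨u₀, U, hu₀, hU, hlast⟩ := Helper19.KU.exists_words P (E + E + k + ℓ) target hsurj
  rw [← hn] at hu₀ hU
  -- configurations
  let conf : List Cmd → Mic K.D K.n := fun w => wordRun K F w (micInit K)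
  have hconf : ∀ w w', conf (w ++ w') = wordRun K F w' (conf w) := fun w w' =>
    Helper17.KU.wordRun_append K F w w' _
  have hWF : ∀ w, WF (conf w) := fun w => Helper17.KU.wf_wordRun (Helper17.KU.wf_init K)
  let full : (∀ j, P j → Bool) → List Cmd := fun X =>
    u₀ ++ ((List.finRange (2 ^ ℓ)).reverse).flatMap (fun j => U j (X j))
  have hfull : ∀ X, ∀ i ≤ 2 ^ ℓ, full X = high u₀ U X i ++ low U X i := fun X i hi =>
    (high_append_low u₀ U X hi).symm
  let Λc : (∀ j, P j → Bool) → ℕ → Finset ℕ := fun X i =>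
    wordVis K F (low U X i) (conf (high u₀ U X i))
  have hΛc : ∀ X, ∀ i < 2 ^ ℓ, Λc X (i + 1) =
      wordVis K F (uw U X i) (conf (high u₀ U X (i + 1))) ∪ Λc X i := by
    intro X i hi
    simp only [Λc]
    rw [low_succ, Helper17.KU.wordVis_append, ← hconf, ← high_eq u₀ U X hi]
  -- choose the epoch
  obtain ⟨j, X0, hbad⟩ := exists_epoch (R := 2 ^ ℓ) (M := c₁ * k) h2ℓ p1 P
    (L := (Fin (E + E) → Bool) × (Fin k → Bool))
    (fun X l => wordVis K F (w1 l.1 ++ w2 l.2) (conf (full X)) \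
      wordVis K F (w1 l.1) (conf (full X)))
    (by
      intro X l
      rw [Helper17.KU.wordVis_append]
      refine (card_le_card (t := wordVis K F (w2 l.2)
        (wordRun K F (w1 l.1) (conf (full X)))) ?_).trans
          ((hc _ _).1.trans_eq (by rw [length_w2]))
      intro u hu
      obtain ⟨h1, h2⟩ := mem_sdiff.1 hu
      rcases mem_union.1 h1 with h | h
      · exact absurd h h2
      · exact h)
    Λc (fun X i hi => by rw [hΛc X i hi]; exact subset_union_right)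
  -- the parameters of the class
  set e := ex j with he
  have he1 : E₀ ≤ e := hex0 j
  have he2 : e ≤ E := hex j
  have hm : Fintype.card (P j) = 2 ^ (k + e) := hcardP j
  have hVc : Fintype.card (Fin (E + E) → Bool) = 2 ^ (E + E) := by simp
  have hline1 := (hline e he2).1
  have hline2 := (hline e he2).2
  -- lengths
  have hUlen : ∀ X (i : ℕ) (hi : i < 2 ^ ℓ), (uw U X i).length ≤
      n + 4 + 3 * 2 ^ (k + E₀ * (i + 1)) := by
    intro X i hi
    unfold uw
    rw [dif_pos hi]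
    refine (hU _ _).trans_eq ?_
    rw [hcardP]
  have hfullsize : ∀ X, (conf (full X)).size ≤ N := by
    intro X
    refine (hc _ _).2.trans ?_
    rw [hN]
    refine Nat.add_le_add (le_refl _) (Nat.mul_le_mul_left _ ?_)
    rw [hfull X (2 ^ ℓ) le_rfl, List.length_append]
    refine Nat.add_le_add ?_ ?_
    · have : high u₀ U X (2 ^ ℓ) = u₀ := by simp [high]
      rw [this]
      refine hu₀.trans ?_
      refine Nat.mul_le_mul_left _ (Nat.pow_le_pow_left (Nat.add_le_add_left ?_ _) _)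
      calc ∑ j, Fintype.card (P j) ≤ ∑ _j : Fin (2 ^ ℓ), 2 ^ (k + E) := by
            refine sum_le_sum fun j _ => ?_
            rw [hcardP]
            exact Nat.pow_le_pow_right (by norm_num) (Nat.add_le_add_left (hex j) _)
        _ = _ := by rw [sum_const, smul_eq_mul, card_univ, Fintype.card_fin]
    · refine length_low_le U X _ (2 ^ ℓ) fun i hi => (hUlen X i hi).trans ?_
      have : E₀ * (i + 1) ≤ E := by rw [hE]; exact Nat.mul_le_mul_left _ hi
      have := Nat.pow_le_pow_right (n := 2) (by norm_num) (Nat.add_le_add_left this k)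
      omega
  -- the data for the core
  let W := walks K F c₁ (fun w c => (hc w c).1) (E + E) k (jidx.symm j)
  let M0 : Edges K.D := (conf (high u₀ U X0 (j + 1))).edges
  let upd : (P j → Bool) → ∀ j, P j → Bool := fun Y => Function.update X0 j Y
  have hhigh : ∀ Y, high u₀ U (upd Y) (j + 1) = high u₀ U X0 (j + 1) := fun Y =>
    high_update u₀ U X0 Y
  have hconf1 : ∀ Y, conf (high u₀ U (upd Y) j) =
      wordRun K F (uw U (upd Y) j) (conf (high u₀ U (upd Y) (j + 1))) := by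
    intro Y
    rw [← hconf, ← high_eq u₀ U (upd Y) j.2]
  have hconf2 : ∀ Y, conf (full (upd Y)) =
      wordRun K F (low U (upd Y) j) (conf (high u₀ U (upd Y) j)) := by
    intro Y
    rw [← hconf, ← hfull (upd Y) j j.2.le]
  let I : (P j → Bool) → Inst W M0 (fun σ : StK K => σ.2.2) N := fun Y =>
    { σ := stOf (conf (full (upd Y)))
      G := (conf (full (upd Y))).edges
      T := wordVis K F (uw U (upd Y) j) (conf (high u₀ U (upd Y) (j + 1)))
      Tl := Λc (upd Y) j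
      n2_le := hfullsize _
      same := by
        intro u hu hu'
        rw [hconf2 Y, Helper17.KU.wordRun_edges_of_notMem K F _ _ hu', hconf1 Y,
          Helper17.KU.wordRun_edges_of_notMem K F _ _ hu, hhigh Y]
      fresh := by
        intro u hu
        have hu' : (conf (full (upd Y))).size ≤ u := hu
        funext a
        rw [(hWF (full (upd Y))).free u a hu']
        have h1 : (conf (high u₀ U X0 (j + 1))).size ≤ (conf (full (upd Y))).size := by
          rw [hconf2 Y, hconf1 Y, hhigh Y]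
          exact (Helper17.KU.size_le_wordRun K F _ _).trans
            (Helper17.KU.size_le_wordRun K F _ _)
        exact ((hWF _).free u a (h1.trans hu')).symm }
  have hmicI : ∀ Y, mic K (I Y).σ (I Y).G = (conf (full (upd Y))).reset := fun Y => rfl
  -- visited sets in terms of configurations
  have hv1 : ∀ Y v, W.vis1 (I Y).σ v (I Y).G = wordVis K F (w1 v) (conf (full (upd Y))) := by
    intro Y v
    show wordVis K F (w1 v) (mic K (I Y).σ (I Y).G) = _
    rw [hmicI, wordVis_reset]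
  have hv2 : ∀ Y l, W.vis2 (I Y).σ l (I Y).G =
      wordVis K F (w1 l.1 ++ w2 l.2) (conf (full (upd Y))) := by
    intro Y l
    show wordVis K F (w1 l.1 ++ w2 l.2) (mic K (I Y).σ (I Y).G) = _
    rw [hmicI, wordVis_reset]
  have hv3 : ∀ Y l, W.vis3 (I Y).σ l (I Y).G =
      wordVis K F (w1 l.1 ++ w2 l.2 ++ w3 (jidx.symm j)) (conf (full (upd Y))) := by
    intro Y l
    show wordVis K F (w1 l.1 ++ w2 l.2 ++ w3 (jidx.symm j)) (mic K (I Y).σ (I Y).G) = _
    rw [hmicI, wordVis_reset]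
  have : NeZero κ := ⟨by rw [hκ]; positivity⟩
  have ht0 : 0 < t := by rw [ht]; positivity
  have hκpos : 0 < κ ^ t := by rw [hκ]; positivity
  have hΓ0 : 0 < Γ := by rw [hΓ]; positivity
  subst ht
  refine core (N := N) (κ := κ) (s := 2 ^ (e - 3) * κ ^ (c₁ * (ℓ + 1))) W (fj j) M0
    (fun σ : StK K => σ.2.2) I
    (Λ := 2 ^ (E + E - e)) (Γ := Γ) (Gh := Gh) (K := 2 ^ k) (B := 2 ^ (2 * (E - e))) (B2 := B₂)
    (u1 := u₁) (β := 2 ^ g) (Tmax := c₁ * (n + 4 + 3 * 2 ^ (k + e)))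
    (Tlmax := c₁ * (2 ^ ℓ * (n + 4 + 3 * 2 ^ (k + e - E₀))))
    (ρH := 2 ^ (k + e - g)) (ρ2 := 2 ^ (k + e - g)) (w := w) (D0 := 2 ^ (k + e - 5))
    ?hans ?hfib ?hK ?hinj ?hpair ?hvis1
    (fun Y u y => y ∈ ball (conf (full (upd Y))).edges ((K.r + 1) * F * (k + (ℓ + 1))) u)
    ?hout ?hin ?hnear
    (univ ×ˢ range N ×ˢ range (N + 1)) ?hσ
    ((univ : Finset (Fin K.D → Option (Fin N × Fin K.D))).image
      (fun ρ a => (ρ a).map fun q => ((q.1 : ℕ), q.2))) ?hrow ?hbad ?hT ?hTl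
    (by positivity) hΓ0 ?hGh (by positivity) ?hP ?n1 ?n3 ?n4 ?n5 ?n6 ?n7 ?n8 ?n9 ?n10 ?n11 ?n12
  case hans =>
    intro Y l
    show (wordRun K F (w1 l.1 ++ w2 l.2 ++ w3 (jidx.symm j)) (mic K (I Y).σ (I Y).G)).bit.getD
      false = Y (fj j l)
    rw [hmicI, wordRun_reset K F (by simp [w1]), ← query_append, ← hconf]
    have hq : full (upd Y) ++ query (Fin.append (Fin.append l.1 l.2) (jidx.symm j)) =
        (full (upd Y) ++ Cmd.H :: (List.ofFn
          (Fin.append (Fin.append l.1 l.2) (jidx.symm j))).map Cmd.walk) ++ [Cmd.W0] := by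
      simp [query]
    rw [hq, hconf]
    show (cmdRun K F Cmd.W0 (conf _)).bit.getD false = _
    rw [hon, Option.getD_some, ← hq]
    have h1 := hlast (upd Y) (List.finRange (2 ^ ℓ)).reverse
      (Fin.append (Fin.append l.1 l.2) (jidx.symm j)) (by simp)
    rw [h1, htarget]
    simp [upd]
  case hfib =>
    rintro ⟨a, b⟩
    rw [← hline1 a b]
    refine (card_bij (fun v _ => ((v, a) : (Fin (E + E) → Bool) × (Fin k → Bool))) ?_ ?_ ?_).symm
    · intro v hv
      have := (mem_filter.1 hv).2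
      exact mem_filter.2 ⟨mem_univ _, by
        show ((a, fun i => line v a (Fin.castLE (hex j) i)) : (Fin k → Bool) × _) = (a, b)
        rw [← this]⟩
    · intro v _ v' _ h
      exact congrArg Prod.fst h
    · rintro ⟨v, a'⟩ hv
      have h1 := (mem_filter.1 hv).2
      have h3 : a' = a := congrArg Prod.fst h1
      have h2 : (fun i : Fin e => line v a' (Fin.castLE he2 i)) = b := congrArg Prod.snd h1
      subst h3
      exact ⟨v, mem_filter.2 ⟨mem_univ _, h2⟩, rfl⟩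
  case hK =>
    intro v
    have : (univ.filter fun l : (Fin (E + E) → Bool) × (Fin k → Bool) => W.π l = v) =
        univ.map ⟨fun a : Fin k → Bool => (v, a), fun a a' h => congrArg Prod.snd h⟩ := by
      ext ⟨v', a⟩
      simp only [mem_filter, mem_univ, true_and, mem_map]
      constructor
      · rintro rfl; exact ⟨a, rfl⟩
      · rintro ⟨a', h⟩; exact (congrArg Prod.fst h).symm
    rw [this, card_map, card_univ]
    simp
  case hinj =>
    rintro ⟨v, a⟩ ⟨v', a'⟩ h1 h2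
    have h3 : v = v' := h1
    have h4 : a = a' := congrArg Prod.fst h2
    rw [h3, h4]
  case hpair =>
    rintro ⟨a, b⟩ ⟨a', b'⟩ hne
    by_cases haa : a = a'
    · subst haa
      refine le_trans (card_le_card (t := ∅) ?_) (by simp)
      intro v hv
      obtain ⟨⟨⟨v1, a1⟩, h1, h2⟩, ⟨⟨v2, a2⟩, h3, h4⟩⟩ := (mem_filter.1 hv).2
      exfalso
      apply hne
      have e1 : v1 = v2 := (show v1 = v from h1).trans (show v2 = v from h3).symm
      have f1 : a1 = a := congrArg Prod.fst h2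
      have f2 : a2 = a := congrArg Prod.fst h4
      subst f1; subst f2; subst e1
      exact h2.symm.trans h4
    · refine le_trans (card_le_card ?_) (hline2 a a' haa b b')
      intro v hv
      obtain ⟨⟨⟨v1, a1⟩, h1, h2⟩, ⟨⟨v2, a2⟩, h3, h4⟩⟩ := (mem_filter.1 hv).2
      have e1 : v1 = v := h1
      have e2 : v2 = v := h3
      have f1 : a1 = a := congrArg Prod.fst h2
      have f2 : a2 = a' := congrArg Prod.fst h4
      have f3 : (fun i : Fin e => line v1 a1 (Fin.castLE he2 i)) = b := congrArg Prod.snd h2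
      have f4 : (fun i : Fin e => line v2 a2 (Fin.castLE he2 i)) = b' := congrArg Prod.snd h4
      subst e1
      subst e2
      subst f1
      subst f2
      exact mem_filter.2 ⟨mem_univ _, f3, f4⟩
  case hvis1 =>
    intro σ v m
    refine ((hc _ _).1).trans_eq ?_
    rw [length_w1, hu₁]
  case hout =>
    intro Y u A hA
    rw [hB₂]
    exact (card_le_card (fun y hy => hA y hy)).trans (Helper17.KU.card_ball_le _ _ _)
  case hin =>
    intro Y y A hA
    rw [hB₂]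
    refine (card_le_card (fun u hu => ?_)).trans
      (Helper17.KU.card_ball_le (conf (full (upd Y))).edges _ y)
    exact (Helper17.KU.mem_ball_comm (hWF _).symm).1 (hA u hu)
  case hnear =>
    intro Y l y hy
    obtain ⟨h1, h2⟩ := mem_filter.1 hy
    obtain ⟨h3, h4⟩ := mem_sdiff.1 h1
    rw [hv3] at h3
    rw [hv2] at h4
    have h5 : y ∉ wordVis K F (w1 l.1) (conf (full (upd Y))) := by
      intro h
      apply h4
      rw [Helper17.KU.wordVis_append]
      exact mem_union_left _ h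
    rw [List.append_assoc] at h3
    obtain ⟨u, hu, hlt, hb⟩ := Helper17.KU.exists_near K F (w1 l.1)
      (w2 l.2 ++ w3 (jidx.symm j)) (conf (full (upd Y))) (hWF _) hF (by simp [w1]) h3 h5 h2
    refine ⟨u, ?_, lt_of_lt_of_le hlt (hfullsize _), ?_⟩
    · show u ∈ W.vis1 (I Y).σ l.1 (I Y).G
      rw [hv1]; exact hu
    · rw [List.length_append, length_w2, length_w3] at hb
      exact hb
  case hσ =>
    intro Y
    refine mem_product.2 ⟨mem_univ _, mem_product.2 ⟨?_, ?_⟩⟩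
    · exact mem_range.2 (lt_of_lt_of_le (hWF (full (upd Y))).head_lt (hfullsize _))
    · exact mem_range.2 (Nat.lt_succ_of_le (hfullsize _))
  case hrow =>
    intro Y u
    have hlt : ∀ a v b, (conf (full (upd Y))).edges u a = some (v, b) → v < N := fun a v b h =>
      lt_of_lt_of_le ((hWF (full (upd Y))).lt u a v b h) (hfullsize _)
    have hq : ∀ a, ∃ q : Option (Fin N × Fin K.D),
        q.map (fun q => ((q.1 : ℕ), q.2)) = (conf (full (upd Y))).edges u a := by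
      intro a
      rcases h : (conf (full (upd Y))).edges u a with _ | ⟨v, b⟩
      · exact ⟨none, rfl⟩
      · exact ⟨some (⟨v, hlt a v b h⟩, b), rfl⟩
    choose ρ hρ using hq
    exact mem_image.2 ⟨ρ, mem_univ _, funext hρ⟩
  case hbad =>
    refine le_trans (le_of_eq ?_) hbad
    congr 1
    refine sum_congr rfl fun Y _ => ?_
    congr 1
    refine filter_congr fun l _ => not_congr ?_
    show Disjoint (W.vis2 (I Y).σ l (I Y).G \ W.vis1 (I Y).σ l.1 (I Y).G)
      (wordVis K F (uw U (upd Y) j) (conf (high u₀ U (upd Y) (j + 1))) \ Λc (upd Y) j) ↔ _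
    rw [hv2, hv1]
    have : Λc (upd Y) (j + 1) \ Λc (upd Y) j =
        wordVis K F (uw U (upd Y) j) (conf (high u₀ U (upd Y) (j + 1))) \ Λc (upd Y) j := by
      rw [hΛc _ _ j.2]
      ext u
      simp only [mem_sdiff, mem_union]
      tauto
    rw [← this]
  case hT =>
    intro Y
    refine (hc _ _).1.trans (Nat.mul_le_mul_left _ ?_)
    exact hUlen _ _ j.2
  case hTl =>
    intro Y
    refine (hc _ _).1.trans (Nat.mul_le_mul_left _ ?_)
    refine (length_low_le U (upd Y) (n + 4 + 3 * 2 ^ (k + e - E₀)) j fun i hi => ?_).trans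
      (Nat.mul_le_mul_right _ j.2.le)
    refine (hUlen _ _ (hi.trans j.2)).trans ?_
    have h1 : E₀ * (i + 1) ≤ e - E₀ := by
      have : E₀ * (i + 1) + E₀ ≤ e := by
        calc E₀ * (i + 1) + E₀ = E₀ * (i + 1 + 1) := by ring
          _ ≤ E₀ * (j + 1) := Nat.mul_le_mul_left _ (by omega)
      omega
    have := Nat.pow_le_pow_right (n := 2) (by norm_num) (show k + E₀ * (i + 1) ≤ k + e - E₀ by omega)
    omega
  case hGh => rw [hGh]; positivity
  case hP => rw [hm]; positivity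
  case n1 =>
    rw [hm, hVc]
    exact num_n1 he1 he2 p6 p8
  case n3 =>
    rw [hVc]
    have : (8 : ℕ) * (2 ^ (e - 3) * 2 ^ (E + E - e)) = 2 ^ (E + E) := by
      rw [show (8 : ℕ) = 2 ^ 3 by norm_num, ← pow_add, ← pow_add]
      congr 1; omega
    calc _ = (8 * (2 ^ (e - 3) * 2 ^ (E + E - e))) * κ ^ (c₁ * (ℓ + 1)) := by ring
      _ = _ := by rw [this]
  case n4 =>
    have h1 : κ ^ (c₁ * (ℓ + 1)) * Γ * 2 ≤ 2 ^ (E + E - e) * Γ := by
      calc _ = (2 * κ ^ (c₁ * (ℓ + 1))) * Γ := by ring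
        _ ≤ 2 ^ E * Γ := Nat.mul_le_mul_right _ p10
        _ ≤ _ := Nat.mul_le_mul_right _ (Nat.pow_le_pow_right (by norm_num) (by omega))
    have h2 : κ ^ (c₁ * (ℓ + 1)) * (c₁ * (ℓ + 1) * 2 ^ (E + E - e)) * 2 =
        2 ^ (E + E - e) * Γ := by
      rw [hΓ]; ring
    rw [mul_add]
    omega
  case n5 =>
    rw [hm]
    have h1 : n + 4 + 3 * 2 ^ (k + e) ≤ 4 * 2 ^ (k + e) := by
      have : 2 ^ k ≤ 2 ^ (k + e) := Nat.pow_le_pow_right (by norm_num) (by omega)
      omega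
    calc _ ≤ 200 * (2 ^ g * (c₁ * (4 * 2 ^ (k + e)))) := by gcongr
      _ = 800 * c₁ * 2 ^ g * 2 ^ (k + e) := by ring
      _ ≤ _ := Nat.mul_le_mul_right _ p5
  case n6 =>
    rw [hm, hGh]
    have : (2 : ℕ) ^ (k + e) = 2 ^ (k + e - g) * 2 ^ g := by
      rw [← pow_add]; congr 1; omega
    rw [this]
    exact le_of_eq (by ring)
  case n7 =>
    rw [hm, ← pow_add]
    exact Nat.pow_le_pow_right (by norm_num) (by omega)
  case n8 =>
    rw [card_product, card_product, card_univ, Fintype.card_fin, card_range, card_range]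
    exact p14
  case n9 =>
    refine le_trans ?_ p15
    refine Nat.add_le_add_right (Nat.mul_le_mul_left _ ?_) _
    refine card_image_le.trans (le_of_eq ?_)
    rw [card_univ]
    simp
  case n10 =>
    refine le_trans ?_ p15
    refine Nat.add_le_add_right ?_ _
    exact Nat.le_mul_of_pos_right _ (by positivity)
  case n11 =>
    rw [hm, show (32 : ℕ) = 2 ^ 5 by norm_num, ← pow_add]
    congr 1; omega
  case n12 =>
    exact num_n12 p2 p3 p4 he1 p7 p9 p11 p12 p13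

end Pool.Agent.Helper1.KU
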