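import Mathlib

/-!
# Choice of the epoch
-/

namespace Pool.Agent.Helper1.KU

open Finset

/-- Summation over all functions and one new value. -/
theorem sum_update {J : Type} [Fintype J] [DecidableEq J] {β : J → Type} [∀ j, Fintype (β j)]
    [∀ j, DecidableEq (β j)] (j : J) (F : (∀ j, β j) → ℕ) :
    ∑ x : ∀ j, β j, ∑ y : β j, F (Function.update x j y) =
      Fintype.card (β j) * ∑ x : ∀ j, β j, F x := by
  have h1 : ∑ x : ∀ j, β j, ∑ y : β j, F (Function.update x j y) =
      ∑ q : (∀ j, β j) × β j, F (Function.update q.1 j q.2) := by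
    rw [Fintype.sum_prod_type]
  have h2 : ∑ q : (∀ j, β j) × β j, F (Function.update q.1 j q.2) =
      ∑ q : (∀ j, β j) × β j, F q.1 := by
    refine Fintype.sum_equiv
      ⟨fun q => (Function.update q.1 j q.2, q.1 j), fun q => (Function.update q.1 j q.2, q.1 j),
        ?_, ?_⟩ _ _ ?_
    · intro q; simp
    · intro q; simp
    · intro q; rfl
  rw [h1, h2, Fintype.sum_prod_type]
  simp [mul_sum]

/-- In a chain of sets the differences are disjoint. -/
theorem sum_card_inter_chain_le (Λ : ℕ → Finset ℕ) (R : ℕ) (hmono : ∀ i < R, Λ i ⊆ Λ (i + 1))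
    (A : Finset ℕ) : ∑ i ∈ range R, (A ∩ (Λ (i + 1) \ Λ i)).card ≤ A.card := by
  have hm : ∀ n ≤ R, ∑ i ∈ range n, (A ∩ (Λ (i + 1) \ Λ i)).card ≤ (A ∩ Λ n).card := by
    intro n
    induction n with
    | zero => intro _; simp
    | succ n ih =>
      intro hn
      rw [sum_range_succ]
      have h1 := ih (by omega)
      have h2 : (A ∩ Λ n).card + (A ∩ (Λ (n + 1) \ Λ n)).card ≤ (A ∩ Λ (n + 1)).card := by
        rw [← card_union_of_disjoint]
        · refine card_le_card ?_
          intro u hu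
          rcases mem_union.1 hu with hu | hu
          · exact mem_inter.2 ⟨(mem_inter.1 hu).1, hmono n (by omega) (mem_inter.1 hu).2⟩
          · exact mem_inter.2 ⟨(mem_inter.1 hu).1, (mem_sdiff.1 (mem_inter.1 hu).2).1⟩
        · rw [disjoint_left]
          intro u hu hu'
          exact (mem_sdiff.1 (mem_inter.1 hu').2).2 (mem_inter.1 hu).2
      omega
  exact (hm R le_rfl).trans (card_le_card inter_subset_left)

/-- The averaging argument over the epochs. -/
theorem exists_epoch {R M : ℕ} (hR : 0 < R) (hRM : 100 * M ≤ R) (P : Fin R → Type)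
    [∀ j, Fintype (P j)] [∀ j, DecidableEq (P j)] {L : Type} [Fintype L]
    (new2 : (∀ j, P j → Bool) → L → Finset ℕ) (hnew : ∀ X l, (new2 X l).card ≤ M)
    (Λ : (∀ j, P j → Bool) → ℕ → Finset ℕ) (hmono : ∀ X, ∀ i < R, Λ X i ⊆ Λ X (i + 1)) :
    ∃ (j : Fin R) (X0 : ∀ j, P j → Bool),
      (∑ X : P j → Bool, (univ.filter fun l => ¬ Disjoint (new2 (Function.update X0 j X) l)
        (Λ (Function.update X0 j X) (j + 1) \ Λ (Function.update X0 j X) j)).card) * 100 ≤
      2 ^ Fintype.card (P j) * Fintype.card L := by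
  classical
  let bad : Fin R → (∀ j, P j → Bool) → ℕ := fun j X =>
    (univ.filter fun l => ¬ Disjoint (new2 X l) (Λ X (j + 1) \ Λ X j)).card
  have h1 : ∀ X, ∑ j, bad j X ≤ Fintype.card L * M := by
    intro X
    calc ∑ j, bad j X = ∑ l : L, ∑ j : Fin R,
          (if ¬ Disjoint (new2 X l) (Λ X (j + 1) \ Λ X j) then 1 else 0) := by
          simp only [bad, card_filter]
          rw [sum_comm]
      _ ≤ ∑ l : L, ∑ j : Fin R, (new2 X l ∩ (Λ X (j + 1) \ Λ X j)).card := by
          refine sum_le_sum fun l _ => sum_le_sum fun j _ => ?_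
          by_cases h : Disjoint (new2 X l) (Λ X (j + 1) \ Λ X j)
          · rw [if_neg (not_not.2 h)]; exact Nat.zero_le _
          · rw [if_pos h]
            obtain ⟨u, h1, h2⟩ := not_disjoint_iff.1 h
            exact card_pos.2 ⟨u, mem_inter.2 ⟨h1, h2⟩⟩
      _ ≤ ∑ _l : L, M := by
          refine sum_le_sum fun l _ => ?_
          have := sum_card_inter_chain_le (Λ X) R (hmono X) (new2 X l)
          rw [← Fin.sum_univ_eq_sum_range (fun i => (new2 X l ∩ (Λ X (i + 1) \ Λ X i)).card)]
            at this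
          exact this.trans (hnew X l)
      _ = _ := by rw [sum_const, smul_eq_mul, card_univ]
  -- choose j
  obtain ⟨j, hj⟩ : ∃ j : Fin R, (∑ X, bad j X) * 100 ≤
      Fintype.card (∀ j, P j → Bool) * Fintype.card L := by
    by_contra hcon
    push Not at hcon
    have h2 : ∑ _j : Fin R, Fintype.card (∀ j, P j → Bool) * Fintype.card L <
        ∑ j : Fin R, (∑ X, bad j X) * 100 :=
      sum_lt_sum_of_nonempty (univ_nonempty_iff.2 ⟨⟨0, hR⟩⟩) fun j _ => hcon j
    rw [sum_const, smul_eq_mul, card_univ, Fintype.card_fin, ← sum_mul, sum_comm] at h2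
    have h3 : (∑ X, ∑ j, bad j X) ≤ Fintype.card (∀ j, P j → Bool) * (Fintype.card L * M) := by
      calc _ ≤ ∑ _X : ∀ j, P j → Bool, Fintype.card L * M := sum_le_sum fun X _ => h1 X
        _ = _ := by rw [sum_const, smul_eq_mul, card_univ]
    have h4 : (∑ X, ∑ j, bad j X) * 100 ≤
        R * (Fintype.card (∀ j, P j → Bool) * Fintype.card L) := by
      calc _ ≤ Fintype.card (∀ j, P j → Bool) * (Fintype.card L * M) * 100 :=
            Nat.mul_le_mul_right _ h3
        _ = (100 * M) * (Fintype.card (∀ j, P j → Bool) * Fintype.card L) := by ring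
        _ ≤ _ := Nat.mul_le_mul_right _ hRM
    exact absurd h2 (not_lt.2 h4)
  -- choose X0
  refine ⟨j, ?_⟩
  by_contra hcon
  push Not at hcon
  have hne : Nonempty (∀ j, P j → Bool) := ⟨fun _ _ => false⟩
  have h5 : ∑ _X0 : ∀ j, P j → Bool, 2 ^ Fintype.card (P j) * Fintype.card L <
      ∑ X0 : ∀ j, P j → Bool, (∑ X : P j → Bool, bad j (Function.update X0 j X)) * 100 :=
    sum_lt_sum_of_nonempty univ_nonempty fun X0 _ => hcon X0
  rw [sum_const, smul_eq_mul, card_univ, ← sum_mul, sum_update j (bad j)] at h5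
  have h6 : Fintype.card (P j → Bool) = 2 ^ Fintype.card (P j) := by simp
  rw [h6] at h5
  have h7 : 2 ^ Fintype.card (P j) * (∑ X, bad j X) * 100 ≤
      Fintype.card (∀ j, P j → Bool) * (2 ^ Fintype.card (P j) * Fintype.card L) := by
    calc _ = 2 ^ Fintype.card (P j) * ((∑ X, bad j X) * 100) := by ring
      _ ≤ 2 ^ Fintype.card (P j) * (Fintype.card (∀ j, P j → Bool) * Fintype.card L) :=
          Nat.mul_le_mul_left _ hj
      _ = _ := by ring
  exact absurd h5 (not_lt.2 h7)

end Pool.Agent.Helper1.KU
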