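import Mathlib

/-!
# Popular vertices and the cluster bound

`S l` is the set of vertices newly visited in the last part of the walk to the leaf `l`.
-/

namespace Pool.Agent.Helper1.KU

open Finset

section Popular

variable {P L V : Type} [Fintype P] [Fintype L] [Fintype V] [DecidableEq P] [DecidableEq L]
  [DecidableEq V]

/-- Number of leaves for the point `p` whose set contains `y`. -/
def pop (f : L → P) (S : L → Finset ℕ) (y : ℕ) (p : P) : ℕ :=
  (univ.filter fun l => f l = p ∧ y ∈ S l).card

/-- `y` is popular for `p`. -/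
def Popular (f : L → P) (S : L → Finset ℕ) (Λ Γ : ℕ) (y : ℕ) (p : P) : Prop :=
  Λ ≤ Γ * pop f S y p

instance (f : L → P) (S : L → Finset ℕ) (Λ Γ : ℕ) (y : ℕ) : DecidablePred (Popular f S Λ Γ y) :=
  fun _ => inferInstanceAs (Decidable (_ ≤ _))

/-- Vertices that are popular for at least `Gh` points. -/
def heavy (f : L → P) (S : L → Finset ℕ) (Λ Γ Gh N : ℕ) : Finset ℕ :=
  (range N).filter fun y => Gh ≤ (univ.filter fun p => Popular f S Λ Γ y p).card

/-- Points with a popular vertex that is not heavy. -/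
def cluster (f : L → P) (S : L → Finset ℕ) (Λ Γ Gh N : ℕ) : Finset P :=
  univ.filter fun p => ∃ y ∈ range N, y ∉ heavy f S Λ Γ Gh N ∧ Popular f S Λ Γ y p

variable {f : L → P} {S : L → Finset ℕ} {Λ Γ Gh N t : ℕ}

omit [Fintype P] [DecidableEq L] in
theorem sum_pop_le (hfib : ∀ p, (univ.filter fun l => f l = p).card = Λ)
    (hS : ∀ l, (S l).card ≤ t) (p : P) :
    ∑ y ∈ range N, pop f S y p ≤ Λ * t := by
  have h1 : ∑ y ∈ range N, pop f S y p =
      ∑ l ∈ univ.filter (fun l => f l = p), ((range N).filter fun y => y ∈ S l).card := by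
    simp only [pop, card_filter]
    rw [sum_comm]
    rw [sum_filter]
    refine sum_congr rfl fun l _ => ?_
    by_cases h : f l = p
    · simp [h]
    · simp [h]
  rw [h1]
  calc _ ≤ ∑ l ∈ univ.filter (fun l => f l = p), t := by
        refine sum_le_sum fun l _ => le_trans (card_le_card ?_) (hS l)
        intro y hy
        exact (mem_filter.1 hy).2
    _ = Λ * t := by rw [sum_const, hfib p, smul_eq_mul]

theorem card_heavy_mul_le (hΛ : 0 < Λ) (hfib : ∀ p, (univ.filter fun l => f l = p).card = Λ)
    (hS : ∀ l, (S l).card ≤ t) :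
    (heavy f S Λ Γ Gh N).card * Gh ≤ Fintype.card P * (Γ * t) := by
  have h1 : (heavy f S Λ Γ Gh N).card * Gh * Λ ≤
      ∑ y ∈ range N, ∑ p : P, (if Popular f S Λ Γ y p then Λ else 0) := by
    calc (heavy f S Λ Γ Gh N).card * Gh * Λ = ∑ _y ∈ heavy f S Λ Γ Gh N, Gh * Λ := by
          rw [sum_const, smul_eq_mul, mul_assoc]
      _ ≤ ∑ y ∈ heavy f S Λ Γ Gh N, ∑ p : P, (if Popular f S Λ Γ y p then Λ else 0) := by
          refine sum_le_sum fun y hy => ?_
          have hy' := (mem_filter.1 hy).2
          rw [← sum_filter, sum_const, smul_eq_mul]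
          exact Nat.mul_le_mul_right _ hy'
      _ ≤ _ := sum_le_sum_of_subset (filter_subset _ _)
  have h2 : ∑ y ∈ range N, ∑ p : P, (if Popular f S Λ Γ y p then Λ else 0) ≤
      Fintype.card P * (Γ * t) * Λ := by
    rw [sum_comm]
    calc ∑ p : P, ∑ y ∈ range N, (if Popular f S Λ Γ y p then Λ else 0)
        ≤ ∑ p : P, ∑ y ∈ range N, Γ * pop f S y p := by
          refine sum_le_sum fun p _ => sum_le_sum fun y _ => ?_
          split_ifs with h
          · exact h
          · exact Nat.zero_le _
      _ ≤ ∑ _p : P, Γ * (Λ * t) := by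
          refine sum_le_sum fun p _ => ?_
          rw [← mul_sum]
          exact Nat.mul_le_mul_left _ (sum_pop_le hfib hS p)
      _ = Fintype.card P * (Γ * t) * Λ := by
          rw [sum_const, smul_eq_mul, card_univ]; ring
  exact Nat.le_of_mul_le_mul_right (h1.trans h2) hΛ

end Popular

section Bound

variable {P L V : Type} [Fintype P] [Fintype L] [Fintype V] [DecidableEq P] [DecidableEq L]
  [DecidableEq V]

/-- The cluster bound. -/
theorem card_cluster_mul_le {f : L → P} {S : L → Finset ℕ} {Λ Γ Gh N : ℕ}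
    {π : L → V} {K B B2 u1 : ℕ} {vis : V → Finset ℕ} {Near : ℕ → ℕ → Prop}
    (hK : ∀ v, (univ.filter fun l => π l = v).card ≤ K)
    (hinj : ∀ l l', π l = π l' → f l = f l' → l = l')
    (hpair : ∀ p p', p ≠ p' →
      (univ.filter fun v => (∃ l, π l = v ∧ f l = p) ∧ ∃ l, π l = v ∧ f l = p').card ≤ B)
    (hvis : ∀ v, (vis v).card ≤ u1)
    (hout : ∀ u (A : Finset ℕ), (∀ y ∈ A, Near u y) → A.card ≤ B2)
    (hin : ∀ y (A : Finset ℕ), (∀ u ∈ A, Near u y) → A.card ≤ B2)
    (hnear : ∀ l, ∀ y ∈ S l, ∃ u ∈ vis (π l), u < N ∧ Near u y) :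
    (cluster f S Λ Γ Gh N).card * Λ ≤
      Γ * (Fintype.card V * u1 + K * (B * ((B2 * Gh) * (Fintype.card P * B2)))) := by
  classical
  set C := cluster f S Λ Γ Gh N with hC
  -- choose the popular vertices
  have hex : ∀ p ∈ C, ∃ y, y < N ∧ y ∉ heavy f S Λ Γ Gh N ∧ Popular f S Λ Γ y p := by
    intro p hp
    obtain ⟨y, hy, h1, h2⟩ := (mem_filter.1 hp).2
    exact ⟨y, mem_range.1 hy, h1, h2⟩
  let yy : P → ℕ := fun p => if h : p ∈ C then (hex p h).choose else 0
  have hyy : ∀ p ∈ C, yy p < N ∧ yy p ∉ heavy f S Λ Γ Gh N ∧ Popular f S Λ Γ (yy p) p := by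
    intro p hp
    have := (hex p hp).choose_spec
    simpa [yy, hp] using this
  let Gs : ℕ → Finset P := fun u => C.filter fun p => Near u (yy p)
  -- each set is small
  have hGs : ∀ u, (Gs u).card ≤ B2 * Gh := by
    intro u
    have hsub : Gs u ⊆ ((range N).filter fun y => Near u y).biUnion
        (fun y => C.filter fun p => yy p = y) := by
      intro p hp
      have hp' := mem_filter.1 hp
      exact mem_biUnion.2 ⟨yy p, mem_filter.2 ⟨mem_range.2 (hyy p hp'.1).1, hp'.2⟩,
        mem_filter.2 ⟨hp'.1, rfl⟩⟩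
    calc (Gs u).card ≤ _ := card_le_card hsub
      _ ≤ ((range N).filter fun y => Near u y).card * Gh := by
          refine card_biUnion_le_card_mul _ _ _ fun y _ => ?_
          rcases (C.filter fun p => yy p = y).eq_empty_or_nonempty with h0 | ⟨p0, hp0⟩
          · rw [h0, card_empty]; exact Nat.zero_le _
          · have hp0' := mem_filter.1 hp0
            have hy := hyy p0 hp0'.1
            rw [hp0'.2] at hy
            have hlt : (univ.filter fun p => Popular f S Λ Γ y p).card < Gh := by
              by_contra hcon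
              exact hy.2.1 (mem_filter.2 ⟨mem_range.2 hy.1, not_lt.1 hcon⟩)
            refine le_trans (card_le_card ?_) hlt.le
            intro p hp
            have hp' := mem_filter.1 hp
            have := (hyy p hp'.1).2.2
            rw [hp'.2] at this
            exact mem_filter.2 ⟨mem_univ _, this⟩
      _ ≤ B2 * Gh := Nat.mul_le_mul_right _ (hout u _ fun y hy => (mem_filter.1 hy).2)
  have hsum : ∑ u ∈ range N, (Gs u).card ≤ Fintype.card P * B2 := by
    have h1 : ∑ u ∈ range N, (Gs u).card =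
        ∑ p ∈ C, ((range N).filter fun u => Near u (yy p)).card := by
      simp only [Gs, card_filter]
      rw [sum_comm]
    rw [h1]
    calc _ ≤ ∑ _p ∈ C, B2 := sum_le_sum fun p _ => hin _ _ fun u hu => (mem_filter.1 hu).2
      _ = C.card * B2 := by rw [sum_const, smul_eq_mul]
      _ ≤ _ := Nat.mul_le_mul_right _ (card_le_univ _)
  -- hit vertices
  let Hit : V → Prop := fun v => ∃ u ∈ range N, ∃ l l', π l = v ∧ π l' = v ∧
    f l ≠ f l' ∧ f l ∈ Gs u ∧ f l' ∈ Gs u
  have hHit : (univ.filter Hit).card ≤ B * ((B2 * Gh) * (Fintype.card P * B2)) := by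
    have hsub : univ.filter Hit ⊆ (range N).biUnion fun u => (Gs u).biUnion fun p =>
        ((Gs u).filter fun p' => p ≠ p').biUnion fun p' =>
        univ.filter fun v => (∃ l, π l = v ∧ f l = p) ∧ ∃ l, π l = v ∧ f l = p' := by
      intro v hv
      obtain ⟨u, hu, l, l', h1, h2, h3, h4, h5⟩ := (mem_filter.1 hv).2
      refine mem_biUnion.2 ⟨u, hu, mem_biUnion.2 ⟨f l, h4, mem_biUnion.2 ⟨f l',
        mem_filter.2 ⟨h5, h3⟩, mem_filter.2 ⟨mem_univ _, ⟨l, h1, rfl⟩, ⟨l', h2, rfl⟩⟩⟩⟩⟩
    calc (univ.filter Hit).card ≤ _ := card_le_card hsub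
      _ ≤ ∑ u ∈ range N, (Gs u).card * ((B2 * Gh) * B) := by
          refine le_trans card_biUnion_le (sum_le_sum fun u _ => ?_)
          refine card_biUnion_le_card_mul _ _ _ fun p _ => ?_
          refine le_trans (card_biUnion_le_card_mul _ _ B fun p' hp' => ?_) ?_
          · exact hpair p p' (mem_filter.1 hp').2
          · exact Nat.mul_le_mul_right _ (le_trans (card_le_card (filter_subset _ _)) (hGs u))
      _ = (∑ u ∈ range N, (Gs u).card) * ((B2 * Gh) * B) := by rw [sum_mul]
      _ ≤ (Fintype.card P * B2) * ((B2 * Gh) * B) := Nat.mul_le_mul_right _ hsum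
      _ = _ := by ring
  -- the leaves that see the popular vertex
  let Q : V → Finset L := fun v => univ.filter fun l => π l = v ∧ f l ∈ C ∧ yy (f l) ∈ S l
  have hQ : ∀ v, (Q v).card ≤ u1 + (if Hit v then K else 0) := by
    intro v
    by_cases hv : Hit v
    · simp only [hv, if_true]
      refine le_trans (le_trans (card_le_card ?_) (hK v)) (Nat.le_add_left _ _)
      intro l hl
      exact mem_filter.2 ⟨mem_univ _, (mem_filter.1 hl).2.1⟩
    · simp only [hv, if_false, add_zero]
      refine le_trans ?_ (hvis v)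
      -- choose u for each l
      have hu : ∀ l ∈ Q v, ∃ u ∈ vis v, u < N ∧ Near u (yy (f l)) := by
        intro l hl
        obtain ⟨_, h1, h2, h3⟩ := mem_filter.1 hl
        obtain ⟨u, hu, hN, hn⟩ := hnear l _ h3
        exact ⟨u, h1 ▸ hu, hN, hn⟩
      refine card_le_card_of_injOn (fun l => if h : l ∈ Q v then (hu l h).choose else 0) ?_ ?_
      · intro l hl
        have hl' : l ∈ Q v := hl
        simp only [hl', dif_pos]
        exact (hu l hl').choose_spec.1
      · intro l hl l' hl' heq
        have h1 : l ∈ Q v := hl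
        have h2 : l' ∈ Q v := hl'
        simp only [h1, h2, dif_pos] at heq
        have s1 := (hu l h1).choose_spec
        have s2 := (hu l' h2).choose_spec
        rw [← heq] at s2
        obtain ⟨_, a1, a2, _⟩ := mem_filter.1 h1
        obtain ⟨_, b1, b2, _⟩ := mem_filter.1 h2
        by_contra hne
        apply hv
        refine ⟨_, mem_range.2 s1.2.1, l, l', a1, b1, ?_, mem_filter.2 ⟨a2, s1.2.2⟩,
          mem_filter.2 ⟨b2, s2.2.2⟩⟩
        intro hf
        exact hne (hinj l l' (a1.trans b1.symm) hf)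
  have hmain : C.card * Λ ≤ Γ * ∑ v : V, (Q v).card := by
    have h1 : ∑ v : V, (Q v).card = ∑ p ∈ C, pop f S (yy p) p := by
      have e1 : ∑ v : V, (Q v).card =
          (univ.filter fun l => f l ∈ C ∧ yy (f l) ∈ S l).card := by
        rw [card_eq_sum_card_fiberwise (f := π) (t := univ) (fun _ _ => by simp)]
        refine sum_congr rfl fun v _ => ?_
        congr 1
        ext l
        simp only [Q, mem_filter, mem_univ, true_and]
        tauto
      have e2 : ∑ p ∈ C, pop f S (yy p) p =
          (univ.filter fun l => f l ∈ C ∧ yy (f l) ∈ S l).card := by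
        rw [card_eq_sum_card_fiberwise (f := f) (t := C)
          (fun l hl => by simpa using (mem_filter.1 hl).2.1)]
        refine sum_congr rfl fun p hp => ?_
        unfold pop
        congr 1
        ext l
        simp only [mem_filter, mem_univ, true_and]
        constructor
        · rintro ⟨rfl, h⟩; exact ⟨⟨hp, h⟩, rfl⟩
        · rintro ⟨⟨_, h⟩, rfl⟩; exact ⟨rfl, h⟩
      rw [e1, e2]
    rw [h1, mul_sum]
    calc C.card * Λ = ∑ _p ∈ C, Λ := by rw [sum_const, smul_eq_mul]
      _ ≤ _ := sum_le_sum fun p hp => (hyy p hp).2.2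
  refine le_trans hmain (Nat.mul_le_mul_left _ ?_)
  calc ∑ v : V, (Q v).card ≤ ∑ v : V, (u1 + (if Hit v then K else 0)) :=
        sum_le_sum fun v _ => hQ v
    _ = Fintype.card V * u1 + (univ.filter Hit).card * K := by
        rw [sum_add_distrib, sum_const, smul_eq_mul, card_univ, ← sum_filter, sum_const,
          smul_eq_mul]
    _ ≤ _ := by
        rw [mul_comm (univ.filter Hit).card K]
        exact Nat.add_le_add_left (Nat.mul_le_mul_left _ hHit) _

end Bound

end Pool.Agent.Helper1.KU
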