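import Pool.Agent.Helper1.KU.Decode

/-!
# The counting core of the lower bound
-/

set_option linter.unusedSectionVars false
set_option linter.unusedVariables false

namespace Pool.Agent.Helper1.KU

open Finset

section

variable {P L V Row St : Type} [Fintype P] [Fintype L] [Fintype V] [DecidableEq P]
  [DecidableEq L] [DecidableEq V] [DecidableEq Row] [DecidableEq St]
  {N t κ s : ℕ} [NeZero κ]

/-- Expected number of sampled ids. -/
theorem sum_R2_le {W : Walks L V Row St t} {M0 : ℕ → Row} {n2 : St → ℕ}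
    (I : Inst W M0 n2 N) :
    (∑ Z : Fin N ⊕ L × Fin t → Fin κ, ((I.R2 Z).card : ℝ)) ≤
      (κ : ℝ) ^ Fintype.card (Fin N ⊕ L × Fin t) * (I.T.card / κ) := by
  have hκ : (0 : ℝ) < κ := by exact_mod_cast Nat.pos_of_ne_zero (NeZero.ne κ)
  have h1 : ∀ Z : Fin N ⊕ L × Fin t → Fin κ, ((I.R2 Z).card : ℝ) ≤
      ∑ u ∈ I.T, if (∃ h : u < N, Z (Sum.inl ⟨u, h⟩) = 0) then (1 : ℝ) else 0 := by
    intro Z
    rw [← sum_filter, sum_const, nsmul_eq_mul, mul_one]
    norm_cast
    refine card_le_card fun u hu => ?_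
    obtain ⟨h1, _, h2⟩ := mem_filter.1 hu
    exact mem_filter.2 ⟨h1, h2⟩
  refine (sum_le_sum fun Z _ => h1 Z).trans ?_
  rw [sum_comm]
  have h2 : ∀ u, (∑ Z : Fin N ⊕ L × Fin t → Fin κ,
      if (∃ h : u < N, Z (Sum.inl ⟨u, h⟩) = 0) then (1 : ℝ) else 0) ≤
      (κ : ℝ) ^ Fintype.card (Fin N ⊕ L × Fin t) / κ := by
    intro u
    rw [← sum_filter, sum_const, nsmul_eq_mul, mul_one]
    by_cases hu : u < N
    · have e : (univ.filter fun Z : Fin N ⊕ L × Fin t → Fin κ =>
          ∃ h : u < N, Z (Sum.inl ⟨u, h⟩) = 0) = univ.filter fun Z : Fin N ⊕ L × Fin t → Fin κ =>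
          ∀ x ∈ ({Sum.inl ⟨u, hu⟩} : Finset (Fin N ⊕ L × Fin t)), Z x = 0 := by
        ext Z; simp [hu]
      have := congrArg (Nat.cast : ℕ → ℝ) (card_vanish (κ := κ)
        ({Sum.inl ⟨u, hu⟩} : Finset (Fin N ⊕ L × Fin t)))
      push_cast at this
      rw [card_singleton, pow_one] at this
      rw [e, le_div_iff₀ hκ, this]
    · have e : (univ.filter fun Z : Fin N ⊕ L × Fin t → Fin κ =>
          ∃ h : u < N, Z (Sum.inl ⟨u, h⟩) = 0) = ∅ := by
        ext Z; simp [hu]
      rw [e]; simp; positivity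
  calc _ ≤ ∑ _u ∈ I.T, (κ : ℝ) ^ Fintype.card (Fin N ⊕ L × Fin t) / κ :=
        sum_le_sum fun u _ => h2 u
    _ = _ := by rw [sum_const, nsmul_eq_mul]; ring

/-- The counting core. -/
theorem core [Nonempty V] (W : Walks L V Row St t) (f : L → P) (M0 : ℕ → Row) (n2 : St → ℕ)
    (I : (P → Bool) → Inst W M0 n2 N)
    {Λ Γ Gh K B B2 u1 β Tmax Tlmax ρH ρ2 w D0 : ℕ}
    (hans : ∀ X l, W.ans (I X).σ l (I X).G = X (f l))
    (hfib : ∀ p, (univ.filter fun l => f l = p).card = Λ)
    (hK : ∀ v, (univ.filter fun l => W.π l = v).card ≤ K)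
    (hinj : ∀ l l', W.π l = W.π l' → f l = f l' → l = l')
    (hpair : ∀ p p', p ≠ p' →
      (univ.filter fun v => (∃ l, W.π l = v ∧ f l = p) ∧ ∃ l, W.π l = v ∧ f l = p').card ≤ B)
    (hvis1 : ∀ σ v m, (W.vis1 σ v m).card ≤ u1)
    (Near : (P → Bool) → ℕ → ℕ → Prop)
    (hout : ∀ X u (A : Finset ℕ), (∀ y ∈ A, Near X u y) → A.card ≤ B2)
    (hin : ∀ X y (A : Finset ℕ), (∀ u ∈ A, Near X u y) → A.card ≤ B2)
    (hnear : ∀ X l, ∀ y ∈ (I X).S l, ∃ u ∈ W.vis1 (I X).σ (W.π l) (I X).G, u < N ∧ Near X u y)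
    (StF : Finset St) (hσ : ∀ X, (I X).σ ∈ StF) (RowF : Finset Row)
    (hrow : ∀ X u, (I X).G u ∈ RowF)
    (hbad : (∑ X, (univ.filter fun l => ¬ (I X).good l).card) * 100 ≤
      2 ^ Fintype.card P * Fintype.card L)
    (hT : ∀ X, (I X).T.card ≤ Tmax) (hTl : ∀ X, (I X).Tl.card ≤ Tlmax)
    (hΛ : 0 < Λ) (hΓ : 0 < Γ) (hGh : 0 < Gh) (hβ : 0 < β) (hP : 0 < Fintype.card P)
    (n1 : 8 * (Γ * (Fintype.card V * u1 + K * (B * ((B2 * Gh) * (Fintype.card P * B2))))) ≤
      Fintype.card P * Λ)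
    (n3 : 8 * (s * Λ) = Fintype.card V * κ ^ t)
    (n4 : κ ^ t * (Γ + t * Λ) ≤ Λ * Γ)
    (n5 : 200 * (β * Tmax) ≤ κ * Fintype.card P)
    (n6 : Fintype.card P * (Γ * t) ≤ ρH * Gh)
    (n7 : Fintype.card P ≤ β * ρ2)
    (n8 : StF.card ≤ 2 ^ w) (n9 : N * RowF.card + 1 ≤ 2 ^ w) (n10 : N + 1 ≤ 2 ^ w)
    (n11 : Fintype.card P = 32 * D0)
    (n12 : 8 * (w * (1 + (Tlmax + s * u1 + ρH) + ρH + ρ2) + 6) ≤ D0) : False := by
  classical
  have hκ0 : (0 : ℝ) < κ := by exact_mod_cast Nat.pos_of_ne_zero (NeZero.ne κ)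
  have hV : (0 : ℝ) < Fintype.card V := by exact_mod_cast Fintype.card_pos
  have hΛr : (0 : ℝ) < Λ := by exact_mod_cast hΛ
  have hΓr : (0 : ℝ) < Γ := by exact_mod_cast hΓ
  have hPr : (0 : ℝ) < Fintype.card P := by exact_mod_cast hP
  set ZT : ℝ := (κ : ℝ) ^ Fintype.card (Fin N ⊕ L × Fin t) with hZT
  have hZT0 : 0 < ZT := by positivity
  -- heavy ids
  have hHv : ∀ X, ((I X).Hv f Λ Γ Gh).card ≤ ρH := by
    intro X
    have h1 := card_heavy_mul_le (Γ := Γ) (Gh := Gh) (N := N) hΛ hfib (I X).card_S_le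
    exact Nat.le_of_mul_le_mul_right (h1.trans n6) hGh
  -- clusters
  have hCl : ∀ X, 8 * (cluster f (I X).S Λ Γ Gh N).card ≤ Fintype.card P := by
    intro X
    have h1 := card_cluster_mul_le (Λ := Λ) (Γ := Γ) (Gh := Gh) hK hinj hpair
      (fun v => hvis1 (I X).σ v (I X).G) (hout X) (hin X) (hnear X)
    have h2 : 8 * (cluster f (I X).S Λ Γ Gh N).card * Λ ≤ Fintype.card P * Λ := by
      calc _ = 8 * ((cluster f (I X).S Λ Γ Gh N).card * Λ) := by ring
        _ ≤ _ := (Nat.mul_le_mul_left 8 h1).trans n1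
    exact Nat.le_of_mul_le_mul_right h2 hΛ
  -- real number facts
  have hsr : (s : ℝ) / (Fintype.card V * (κ : ℝ) ^ t) = 1 / (8 * Λ) := by
    have := congrArg (Nat.cast : ℕ → ℝ) n3
    push_cast at this
    rw [div_eq_div_iff (by positivity) (by positivity)]
    linarith
  have hμ : (1 / 8 : ℝ) = s * Λ / (Fintype.card V * (κ : ℝ) ^ t) := by
    have := congrArg (Nat.cast : ℕ → ℝ) n3
    push_cast at this
    rw [div_eq_div_iff (by norm_num) (by positivity)]
    linarith
  have hκr : (1 : ℝ) / Λ + t / Γ ≤ 1 / (κ : ℝ) ^ t := by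
    have : ((κ : ℝ) ^ t) * (Γ + t * Λ) ≤ Λ * Γ := by exact_mod_cast n4
    rw [div_add_div _ _ hΛr.ne' hΓr.ne', div_le_div_iff₀ (by positivity) (by positivity)]
    linarith
  have hLcard : (Fintype.card L : ℝ) = Λ * Fintype.card P := by
    have : Fintype.card L = ∑ p : P, (univ.filter fun l => f l = p).card := by
      rw [← card_univ, card_eq_sum_card_fiberwise (f := f) (t := univ) (fun _ _ => by simp)]
    rw [this]
    simp only [hfib, sum_const, smul_eq_mul, card_univ]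
    push_cast; ring
  -- the objective function
  let Ψ : (P → Bool) → (Fin s → V) → (Fin N ⊕ L × Fin t → Fin κ) → ℝ := fun X O Z =>
    ((Dset f W.π ((I X).Sf f Λ Γ Gh) O Z).card : ℝ) -
      5 * ((Bset (I X).good W.π ((I X).Sf f Λ Γ Gh) O Z).card : ℝ) - β * ((I X).R2 Z).card
  have hone : ∀ X, (Fintype.card V : ℝ) ^ s * ZT * ((21 / 256) * Fintype.card P -
      6 * (univ.filter fun l => ¬ (I X).good l).card * (1 / (8 * Λ)) - Fintype.card P / 200) ≤
      ∑ O, ∑ Z, Ψ X O Z := by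
    intro X
    have hD := sum_Dset_ge (κ := κ) (s := s) (good := (I X).good) (Γ := Γ) (Gh := Gh)
      ((I X).Sf f Λ Γ Gh) hΛ hΓ hfib
      hinj (I X).S_subset (I X).card_S_le
      (fun O l hg hO => ((I X).Sf_eq_of_good f Λ Γ Gh O hg hO).2) hκr hμ
    have hB := sum_Bset_le (κ := κ) (s := s) (π := W.π) (good := (I X).good)
      ((I X).Sf f Λ Γ Gh)
      (fun O l => ⟨(I X).Sf_subset f Λ Γ Gh O l, (I X).card_Sf_le f Λ Γ Gh O l⟩)
    have hR : (∑ O : Fin s → V, ∑ Z : Fin N ⊕ L × Fin t → Fin κ, (((I X).R2 Z).card : ℝ)) ≤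
        (Fintype.card V : ℝ) ^ s * ZT * (Tmax / κ) := by
      rw [sum_const, nsmul_eq_mul, card_univ, Fintype.card_fun, Fintype.card_fin, mul_assoc]
      push_cast
      refine mul_le_mul_of_nonneg_left ?_ (by positivity)
      refine (sum_R2_le (I X)).trans ?_
      refine mul_le_mul_of_nonneg_left ?_ hZT0.le
      refine div_le_div_of_nonneg_right ?_ hκ0.le
      exact_mod_cast hT X
    have hsplit : ∑ O, ∑ Z, Ψ X O Z =
        (∑ O : Fin s → V, ∑ Z : Fin N ⊕ L × Fin t → Fin κ,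
          ((Dset f W.π ((I X).Sf f Λ Γ Gh) O Z).card : ℝ)) -
        5 * (∑ O : Fin s → V, ∑ Z : Fin N ⊕ L × Fin t → Fin κ,
          ((Bset (I X).good W.π ((I X).Sf f Λ Γ Gh) O Z).card : ℝ)) -
        β * (∑ O : Fin s → V, ∑ Z : Fin N ⊕ L × Fin t → Fin κ, (((I X).R2 Z).card : ℝ)) := by
      simp only [Ψ, sum_sub_distrib, mul_sum]
    rw [hsplit]
    rw [hsr] at hD hB
    have hClr : ((cluster f (I X).S Λ Γ Gh N).card : ℝ) ≤ Fintype.card P / 8 := by
      have : (8 : ℝ) * (cluster f (I X).S Λ Γ Gh N).card ≤ Fintype.card P := by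
        exact_mod_cast hCl X
      linarith
    have hβr : (β : ℝ) * (Tmax / κ) ≤ Fintype.card P / 200 := by
      have : (200 : ℝ) * (β * Tmax) ≤ κ * Fintype.card P := by exact_mod_cast n5
      rw [mul_div_assoc', div_le_div_iff₀ hκ0 (by norm_num)]
      linarith
    have hVZ : 0 ≤ (Fintype.card V : ℝ) ^ s * ZT := by positivity
    set bad : ℝ := ((univ.filter fun l => ¬ (I X).good l).card : ℝ) with hbaddef
    have e1 : (Fintype.card V : ℝ) ^ s * ZT * ((21 / 256) * Fintype.card P -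
        bad * (1 / (8 * Λ))) ≤
        ∑ O : Fin s → V, ∑ Z : Fin N ⊕ L × Fin t → Fin κ,
          ((Dset f W.π ((I X).Sf f Λ Γ Gh) O Z).card : ℝ) := by
      refine le_trans (mul_le_mul_of_nonneg_left ?_ hVZ) hD
      have : (7 / 8 * (Fintype.card P : ℝ)) ≤
          Fintype.card P - (cluster f (I X).S Λ Γ Gh N).card := by linarith
      have h3 := mul_le_mul_of_nonneg_right this
        (by norm_num : (0 : ℝ) ≤ 1 / 8 - 2 * (1 / 8) ^ 2)
      linarith
    have e2 : (β : ℝ) * (∑ O : Fin s → V, ∑ Z : Fin N ⊕ L × Fin t → Fin κ,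
        (((I X).R2 Z).card : ℝ)) ≤
        (Fintype.card V : ℝ) ^ s * ZT * (Fintype.card P / 200) := by
      calc _ ≤ (β : ℝ) * ((Fintype.card V : ℝ) ^ s * ZT * (Tmax / κ)) :=
            mul_le_mul_of_nonneg_left hR (by positivity)
        _ = (Fintype.card V : ℝ) ^ s * ZT * (β * (Tmax / κ)) := by ring
        _ ≤ _ := mul_le_mul_of_nonneg_left hβr hVZ
    calc _ = (Fintype.card V : ℝ) ^ s * ZT * ((21 / 256) * Fintype.card P -
          bad * (1 / (8 * Λ))) - 5 * ((Fintype.card V : ℝ) ^ s * ZT * (bad * (1 / (8 * Λ)))) -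
          (Fintype.card V : ℝ) ^ s * ZT * (Fintype.card P / 200) := by ring
      _ ≤ _ := by linarith
  -- average over X
  have htot : (2 : ℝ) ^ Fintype.card P * ((Fintype.card V : ℝ) ^ s * ZT) *
      (Fintype.card P / 16) ≤ ∑ O, ∑ Z, ∑ X, Ψ X O Z := by
    have e1 : ∑ O, ∑ Z, ∑ X, Ψ X O Z = ∑ X, ∑ O, ∑ Z, Ψ X O Z := by
      rw [sum_congr rfl fun O _ => sum_comm]
      rw [sum_comm]
    rw [e1]
    refine le_trans ?_ (sum_le_sum fun X _ => hone X)
    rw [← mul_sum, sum_sub_distrib, sum_sub_distrib, sum_const, sum_const]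
    simp only [nsmul_eq_mul, card_univ, Fintype.card_fun, Fintype.card_bool]
    have hb : (∑ X : P → Bool, 6 * ((univ.filter fun l => ¬ (I X).good l).card : ℝ) *
        (1 / (8 * Λ))) ≤ 2 ^ Fintype.card P * (3 / 400 * Fintype.card P) := by
      rw [← sum_mul, ← mul_sum]
      have : (∑ X : P → Bool, ((univ.filter fun l => ¬ (I X).good l).card : ℝ)) * 100 ≤
          2 ^ Fintype.card P * (Λ * Fintype.card P) := by
        rw [← hLcard]; exact_mod_cast hbad
      rw [mul_one_div, div_le_iff₀ (by positivity)]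
      nlinarith
    push_cast
    have h2 : (0 : ℝ) < 2 ^ Fintype.card P := by positivity
    have h3 : 0 ≤ (2 : ℝ) ^ Fintype.card P * Fintype.card P := by positivity
    calc _ = (Fintype.card V : ℝ) ^ s * ZT * (2 ^ Fintype.card P * (Fintype.card P / 16)) := by
          ring
      _ ≤ _ := by
          refine mul_le_mul_of_nonneg_left ?_ (by positivity)
          nlinarith
  obtain ⟨O, Z, hOZ⟩ : ∃ O Z, (2 : ℝ) ^ Fintype.card P * (Fintype.card P / 16) ≤
      ∑ X, Ψ X O Z := by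
    by_contra hcon
    push Not at hcon
    have : ∑ O, ∑ Z, ∑ X, Ψ X O Z < ∑ _O : Fin s → V, ∑ _Z : Fin N ⊕ L × Fin t → Fin κ,
        (2 : ℝ) ^ Fintype.card P * (Fintype.card P / 16) := by
      have hne : Nonempty (Fin N ⊕ L × Fin t → Fin κ) := ⟨fun _ => 0⟩
      have hne2 : Nonempty (Fin s → V) := inferInstance
      refine sum_lt_sum_of_nonempty univ_nonempty fun O _ => ?_
      exact sum_lt_sum_of_nonempty univ_nonempty fun Z _ => hcon O Z
    simp only [sum_const, card_univ, Fintype.card_fun, nsmul_eq_mul, Fintype.card_fin] at this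
    push_cast at this
    have e : (Fintype.card V : ℝ) ^ s * ((κ : ℝ) ^ Fintype.card (Fin N ⊕ L × Fin t) *
        (2 ^ Fintype.card P * (Fintype.card P / 16))) =
        (2 : ℝ) ^ Fintype.card P * ((Fintype.card V : ℝ) ^ s * ZT) *
          (Fintype.card P / 16) := by rw [hZT]; ring
    rw [e] at this
    exact absurd htot (not_le.2 this)
  -- the good inputs
  let Xs : Finset (P → Bool) := univ.filter fun X => (Fintype.card P / 32 : ℝ) ≤ Ψ X O Z
  have hΨle : ∀ X, Ψ X O Z ≤ Fintype.card P := by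
    intro X
    have h1 : ((Dset f W.π ((I X).Sf f Λ Γ Gh) O Z).card : ℝ) ≤ Fintype.card P := by
      exact_mod_cast card_le_univ _
    have h2 : (0 : ℝ) ≤ 5 * ((Bset (I X).good W.π ((I X).Sf f Λ Γ Gh) O Z).card : ℝ) := by
      positivity
    have h3 : (0 : ℝ) ≤ β * ((I X).R2 Z).card := by positivity
    simp only [Ψ]
    linarith
  have hXs : (2 : ℝ) ^ Fintype.card P / 32 ≤ Xs.card := by
    have h1 : ∑ X, Ψ X O Z ≤ Xs.card * Fintype.card P +
        2 ^ Fintype.card P * (Fintype.card P / 32) := by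
      calc ∑ X, Ψ X O Z ≤ ∑ X : P → Bool, ((if X ∈ Xs then (Fintype.card P : ℝ) else 0) +
            Fintype.card P / 32) := by
            refine sum_le_sum fun X _ => ?_
            split_ifs with h
            · have := hΨle X
              have : (0 : ℝ) ≤ Fintype.card P / 32 := by positivity
              linarith [hΨle X]
            · have : Ψ X O Z < Fintype.card P / 32 := by
                by_contra hc
                exact h (mem_filter.2 ⟨mem_univ _, not_lt.1 hc⟩)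
              linarith
        _ = _ := by
            rw [sum_add_distrib, sum_const, ← sum_filter, sum_const]
            simp only [nsmul_eq_mul, card_univ, Fintype.card_fun, Fintype.card_bool]
            push_cast
            congr 3
            congr 1
            ext X; simp
    have h2 := hOZ.trans h1
    have h3 : (2 : ℝ) ^ Fintype.card P * (Fintype.card P / 32) ≤ Xs.card * Fintype.card P := by
      linarith
    have h4 : (2 : ℝ) ^ Fintype.card P / 32 * Fintype.card P ≤ Xs.card * Fintype.card P := by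
      linarith
    exact le_of_mul_le_mul_right h4 hPr
  -- the messages
  let small : ℕ → Finset (Finset (ℕ × Row)) := fun n =>
    ((range N ×ˢ RowF).powerset).filter fun A => A.card ≤ n
  let Msg : Finset (Message Row St) :=
    StF ×ˢ small (Tlmax + s * u1 + ρH) ×ˢ ((range N).powerset.filter fun A => A.card ≤ ρH) ×ˢ
      small ρ2
  have hpsi : ∀ X ∈ Xs, (Fintype.card P / 32 : ℝ) ≤ Ψ X O Z := fun X hX => (mem_filter.1 hX).2
  have hmsg : ∀ X ∈ Xs, (I X).msg f Λ Γ Gh O Z ∈ Msg := by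
    intro X hX
    have hN := (I X).n2_le
    refine mem_product.2 ⟨hσ X, mem_product.2 ⟨?_, mem_product.2 ⟨?_, ?_⟩⟩⟩
    · refine mem_filter.2 ⟨mem_powerset.2 ?_, ?_⟩
      · intro a ha
        obtain ⟨u, hu, rfl⟩ := mem_image.1 ha
        exact mem_product.2 ⟨mem_range.2 (lt_of_lt_of_le (mem_filter.1 hu).2 hN), hrow X u⟩
      · refine card_image_le.trans ?_
        refine (card_le_card (filter_subset _ _)).trans ?_
        refine (card_union_le _ _).trans ?_
        refine Nat.add_le_add ((card_union_le _ _).trans (Nat.add_le_add (hTl X) ?_)) (hHv X)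
        refine (card_biUnion_le_card_mul _ _ u1 fun τ _ => hvis1 _ _ _).trans ?_
        rw [card_univ, Fintype.card_fin]
    · refine mem_filter.2 ⟨mem_powerset.2 (filter_subset _ _), hHv X⟩
    · refine mem_filter.2 ⟨mem_powerset.2 ?_, ?_⟩
      · intro a ha
        obtain ⟨u, hu, rfl⟩ := mem_image.1 ha
        exact mem_product.2 ⟨mem_range.2 (lt_of_lt_of_le (mem_filter.1 hu).2.1 hN), hrow X u⟩
      · refine card_image_le.trans ?_
        have h1 := hpsi X hX
        have h2 : (0 : ℝ) ≤ 5 * ((Bset (I X).good W.π ((I X).Sf f Λ Γ Gh) O Z).card : ℝ) := by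
          positivity
        have h3 : ((Dset f W.π ((I X).Sf f Λ Γ Gh) O Z).card : ℝ) ≤ Fintype.card P := by
          exact_mod_cast card_le_univ _
        have h4 : (β : ℝ) * ((I X).R2 Z).card ≤ Fintype.card P := by
          simp only [Ψ] at h1
          have : (0 : ℝ) ≤ Fintype.card P / 32 := by positivity
          linarith
        have h5 : β * ((I X).R2 Z).card ≤ β * ρ2 := by
          refine le_trans ?_ n7
          exact_mod_cast h4
        exact Nat.le_of_mul_le_mul_left h5 hβ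
  have hdom : ∀ X, (univ.filter fun p =>
      W.dec f M0 n2 O Z ((I X).msg f Λ Γ Gh O Z) p ≠ none) =
      Dset f W.π ((I X).Sf f Λ Γ Gh) O Z := by
    intro X
    ext p
    rw [mem_filter]
    simp only [mem_univ, true_and]
    exact (I X).dec_ne_none_iff f Λ Γ Gh O Z p
  have hfin := messages_ge Msg (fun q => W.dec f M0 n2 O Z q) Xs
    (fun X => (I X).msg f Λ Γ Gh O Z) hmsg D0
    (by
      intro X hX
      rw [hdom X]
      have h1 := hpsi X hX
      have h2 : (0 : ℝ) ≤ 5 * ((Bset (I X).good W.π ((I X).Sf f Λ Γ Gh) O Z).card : ℝ) := by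
        positivity
      have h3 : (0 : ℝ) ≤ β * ((I X).R2 Z).card := by positivity
      have h4 : (Fintype.card P : ℝ) = 32 * D0 := by exact_mod_cast n11
      simp only [Ψ] at h1
      rw [h4] at h1
      have : (D0 : ℝ) ≤ ((Dset f W.π ((I X).Sf f Λ Γ Gh) O Z).card : ℝ) := by linarith
      exact_mod_cast this)
    (by
      intro X hX
      rw [hdom X]
      have h1 := hpsi X hX
      have h0 := (I X).card_err_le f Λ Γ Gh O Z X (hans X)
      have h3 : (0 : ℝ) ≤ β * ((I X).R2 Z).card := by positivity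
      simp only [Ψ] at h1
      have h5 : (0 : ℝ) ≤ Fintype.card P / 32 := by positivity
      have h4 : 5 * ((Bset (I X).good W.π ((I X).Sf f Λ Γ Gh) O Z).card : ℝ) ≤
          ((Dset f W.π ((I X).Sf f Λ Γ Gh) O Z).card : ℝ) := by linarith
      have h6 : 5 * (Bset (I X).good W.π ((I X).Sf f Λ Γ Gh) O Z).card ≤
          (Dset f W.π ((I X).Sf f Λ Γ Gh) O Z).card := by exact_mod_cast h4
      exact (Nat.mul_le_mul_left 5 h0).trans h6)
  -- the number of messages
  have hMsg : Msg.card ≤ 2 ^ (w * (1 + (Tlmax + s * u1 + ρH) + ρH + ρ2)) := by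
    have hsm : ∀ n, (small n).card ≤ (2 ^ w) ^ n := by
      intro n
      refine (card_small_sets _ _).trans (Nat.pow_le_pow_left ?_ _)
      rw [card_product, card_range]
      exact n9
    have hsm2 : ((range N).powerset.filter fun A => A.card ≤ ρH).card ≤ (2 ^ w) ^ ρH := by
      refine (card_small_sets _ _).trans (Nat.pow_le_pow_left ?_ _)
      rw [card_range]
      exact n10
    calc Msg.card = StF.card * ((small (Tlmax + s * u1 + ρH)).card *
          (((range N).powerset.filter fun A => A.card ≤ ρH).card * (small ρ2).card)) := by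
          simp only [Msg, card_product]
      _ ≤ 2 ^ w * ((2 ^ w) ^ (Tlmax + s * u1 + ρH) * ((2 ^ w) ^ ρH * (2 ^ w) ^ ρ2)) :=
          Nat.mul_le_mul n8 (Nat.mul_le_mul (hsm _) (Nat.mul_le_mul hsm2 (hsm _)))
      _ = _ := by
          rw [← pow_mul, ← pow_mul, ← pow_mul, ← pow_add, ← pow_add, ← pow_add]
          congr 1; ring
  have h2P : (0 : ℝ) < 2 ^ Fintype.card P := by positivity
  have h87 : (0 : ℝ) < (8 / 7) ^ D0 := by positivity
  have hlast : (8 / 7 : ℝ) ^ D0 ≤ 32 * Msg.card := by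
    have h1 : (8 / 7 : ℝ) ^ D0 * (2 ^ Fintype.card P / 32) ≤ Msg.card * 2 ^ Fintype.card P :=
      le_trans (mul_le_mul_of_nonneg_left hXs h87.le) hfin
    have h2 : (8 / 7 : ℝ) ^ D0 * 2 ^ Fintype.card P ≤ 32 * Msg.card * 2 ^ Fintype.card P := by
      linarith
    exact le_of_mul_le_mul_right h2 h2P
  have hge : (2 : ℝ) ^ (w * (1 + (Tlmax + s * u1 + ρH) + ρH + ρ2) + 6) ≤ (8 / 7 : ℝ) ^ D0 := by
    calc (2 : ℝ) ^ (w * (1 + (Tlmax + s * u1 + ρH) + ρH + ρ2) + 6) ≤
          ((8 / 7 : ℝ) ^ 8) ^ (w * (1 + (Tlmax + s * u1 + ρH) + ρH + ρ2) + 6) :=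
          pow_le_pow_left₀ (by norm_num) (by norm_num) _
      _ = (8 / 7 : ℝ) ^ (8 * (w * (1 + (Tlmax + s * u1 + ρH) + ρH + ρ2) + 6)) := by
          rw [← pow_mul]
      _ ≤ _ := pow_le_pow_right₀ (by norm_num) n12
  have hMr : (Msg.card : ℝ) ≤ 2 ^ (w * (1 + (Tlmax + s * u1 + ρH) + ρH + ρ2)) := by
    exact_mod_cast hMsg
  have hpos : (0 : ℝ) < 2 ^ (w * (1 + (Tlmax + s * u1 + ρH) + ρH + ρ2)) := by positivity
  rw [pow_add] at hge
  nlinarith

end

end Pool.Agent.Helper1.KU
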