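import Pool.Agent.Helper1.KU.Expect

/-!
# The decoder
-/

set_option linter.unusedSectionVars false
set_option linter.unusedVariables false

namespace Pool.Agent.Helper1.KU

open Finset

/-! ### Counting functions compatible with a partial function -/

section Weight

variable {P : Type} [Fintype P] [DecidableEq P]

/-- Weight of a value at one place. -/
noncomputable def wt (g : Option Bool) (b : Bool) : ℝ :=
  match g with
  | none => 1
  | some b' => if b' = b then 4 / 3 else 2 / 3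

theorem wt_pos (g : Option Bool) (b : Bool) : 0 < wt g b := by
  unfold wt
  split
  · norm_num
  · split_ifs <;> norm_num

theorem sum_wt (g : P → Option Bool) :
    ∑ X : P → Bool, ∏ p, wt (g p) (X p) = 2 ^ Fintype.card P := by
  have h := (Finset.prod_univ_sum (fun _ : P => (univ : Finset Bool))
    (fun p b => wt (g p) b)).symm
  rw [Fintype.piFinset_univ] at h
  rw [h]
  have : ∀ p, ∑ b, wt (g p) b = 2 := by
    intro p
    rw [Fintype.sum_bool]
    unfold wt
    rcases g p with _ | b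
    · norm_num
    · cases b <;> norm_num
  rw [prod_congr rfl fun p _ => this p, prod_const, card_univ]

theorem prod_wt_ge (g : P → Option Bool) (X : P → Bool)
    (h : 5 * (univ.filter fun p => g p ≠ none ∧ g p ≠ some (X p)).card ≤
      (univ.filter fun p => g p ≠ none).card) :
    (8 / 7 : ℝ) ^ (univ.filter fun p => g p ≠ none).card ≤ ∏ p, wt (g p) (X p) := by
  set Dm := univ.filter fun p => g p ≠ none with hDm
  set Er := univ.filter fun p => g p ≠ none ∧ g p ≠ some (X p) with hEr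
  have hsub : Er ⊆ Dm := fun p hp => mem_filter.2 ⟨mem_univ _, (mem_filter.1 hp).2.1⟩
  have h1 : ∏ p, wt (g p) (X p) = (4 / 3 : ℝ) ^ (Dm \ Er).card * (2 / 3) ^ Er.card := by
    rw [← prod_sdiff (subset_univ Dm), ← prod_sdiff hsub]
    have e1 : ∏ p ∈ univ \ Dm, wt (g p) (X p) = 1 := by
      refine prod_eq_one fun p hp => ?_
      have : g p = none := by
        have := (mem_sdiff.1 hp).2
        simpa [hDm] using this
      simp [this, wt]
    have e2 : ∏ p ∈ Dm \ Er, wt (g p) (X p) = (4 / 3 : ℝ) ^ (Dm \ Er).card := by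
      rw [← prod_const]
      refine prod_congr rfl fun p hp => ?_
      obtain ⟨h1, h2⟩ := mem_sdiff.1 hp
      have h3 := (mem_filter.1 h1).2
      have h4 : g p = some (X p) := by
        by_contra hne
        exact h2 (mem_filter.2 ⟨mem_univ _, h3, hne⟩)
      simp [h4, wt]
    have e3 : ∏ p ∈ Er, wt (g p) (X p) = (2 / 3 : ℝ) ^ Er.card := by
      rw [← prod_const]
      refine prod_congr rfl fun p hp => ?_
      obtain ⟨h1, h2⟩ := (mem_filter.1 hp).2
      rcases hg : g p with _ | b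
      · exact absurd hg h1
      · have : b ≠ X p := fun hb => h2 (by rw [hg, hb])
        simp [wt, this]
    rw [e1, e2, e3, one_mul]
  rw [h1]
  have h2 : (Dm \ Er).card + Er.card = Dm.card := card_sdiff_add_card_eq_card hsub
  have h3 : (2 / 3 : ℝ) ^ Er.card = (4 / 3) ^ Er.card * (1 / 2) ^ Er.card := by
    rw [← mul_pow]; norm_num
  rw [h3, ← mul_assoc, ← pow_add, h2]
  have h4 : (6 / 7 : ℝ) ^ Dm.card ≤ (1 / 2) ^ Er.card := by
    calc (6 / 7 : ℝ) ^ Dm.card ≤ (6 / 7 : ℝ) ^ (5 * Er.card) :=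
          pow_le_pow_of_le_one (by norm_num) (by norm_num) h
      _ = ((6 / 7 : ℝ) ^ 5) ^ Er.card := by rw [pow_mul]
      _ ≤ _ := pow_le_pow_left₀ (by norm_num) (by norm_num) _
  calc (8 / 7 : ℝ) ^ Dm.card = (4 / 3) ^ Dm.card * (6 / 7) ^ Dm.card := by
        rw [← mul_pow]; norm_num
    _ ≤ _ := mul_le_mul_of_nonneg_left h4 (by positivity)

/-- If many functions are decoded from few messages, then there are many messages. -/
theorem messages_ge {M : Type} (Msg : Finset M) (dec : M → P → Option Bool)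
    (Xs : Finset (P → Bool)) (msg : (P → Bool) → M) (hmsg : ∀ X ∈ Xs, msg X ∈ Msg)
    (D0 : ℕ) (hD : ∀ X ∈ Xs, D0 ≤ (univ.filter fun p => dec (msg X) p ≠ none).card)
    (hE : ∀ X ∈ Xs, 5 * (univ.filter fun p => dec (msg X) p ≠ none ∧
        dec (msg X) p ≠ some (X p)).card ≤ (univ.filter fun p => dec (msg X) p ≠ none).card) :
    (8 / 7 : ℝ) ^ D0 * Xs.card ≤ Msg.card * 2 ^ Fintype.card P := by
  classical
  calc (8 / 7 : ℝ) ^ D0 * Xs.card = ∑ _X ∈ Xs, (8 / 7 : ℝ) ^ D0 := by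
        rw [sum_const, nsmul_eq_mul, mul_comm]
    _ ≤ ∑ X ∈ Xs, ∏ p, wt (dec (msg X) p) (X p) := by
        refine sum_le_sum fun X hX => ?_
        refine le_trans ?_ (prod_wt_ge (dec (msg X)) X (hE X hX))
        exact pow_le_pow_right₀ (by norm_num) (hD X hX)
    _ ≤ ∑ X ∈ Xs, ∑ M' ∈ Msg, ∏ p, wt (dec M' p) (X p) := by
        refine sum_le_sum fun X hX => ?_
        exact single_le_sum (f := fun M' => ∏ p, wt (dec M' p) (X p))
          (fun M' _ => (prod_pos fun p _ => wt_pos _ _).le) (hmsg X hX)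
    _ ≤ ∑ X : P → Bool, ∑ M' ∈ Msg, ∏ p, wt (dec M' p) (X p) :=
        sum_le_sum_of_subset_of_nonneg (subset_univ _) fun _ _ _ =>
          sum_nonneg fun _ _ => (prod_pos fun p _ => wt_pos _ _).le
    _ = ∑ M' ∈ Msg, ∑ X : P → Bool, ∏ p, wt (dec M' p) (X p) := sum_comm
    _ = Msg.card * 2 ^ Fintype.card P := by
        simp only [sum_wt, sum_const, nsmul_eq_mul]

end Weight

/-! ### Counting small sets -/

theorem card_small_sets {α : Type} [DecidableEq α] (U : Finset α) (n : ℕ) :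
    (U.powerset.filter fun A => A.card ≤ n).card ≤ (U.card + 1) ^ n := by
  -- every small set is the range of a function `Fin n → Option U`
  classical
  have hcard : ((U.card + 1) ^ n) = Fintype.card (Fin n → Option U) := by simp
  rw [hcard, ← card_univ]
  refine card_le_card_of_surjOn (fun φ : Fin n → Option U =>
    (univ.biUnion fun i => match φ i with
      | none => (∅ : Finset α)
      | some a => {(a : α)})) ?_
  intro A hA
  have hA' := mem_filter.1 (mem_coe.1 hA)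
  have hAU : A ⊆ U := mem_powerset.1 hA'.1
  have hAn := hA'.2
  -- enumerate A
  let e := A.equivFin
  refine ⟨fun i => if h : (i : ℕ) < A.card then
      some ⟨(e.symm ⟨i, h⟩ : α), hAU (e.symm ⟨i, h⟩).2⟩ else none, by simp, ?_⟩
  ext a
  simp only [mem_biUnion, mem_univ, true_and]
  constructor
  · rintro ⟨i, hi⟩
    by_cases h : (i : ℕ) < A.card
    · simp only [h, dif_pos, mem_singleton] at hi
      rw [hi]; exact (e.symm ⟨i, h⟩).2
    · simp [h] at hi
  · intro ha
    refine ⟨⟨(e ⟨a, ha⟩ : ℕ), lt_of_lt_of_le (e ⟨a, ha⟩).2 hAn⟩, ?_⟩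
    simp

/-! ### Looking up revealed rows -/

section Lookup

variable {Row : Type}

/-- The row of `u` according to the list `A` of revealed rows, with default `m`. -/
noncomputable def lookup (A : Finset (ℕ × Row)) (m : ℕ → Row) (u : ℕ) : Row := by
  classical
  exact if h : ∃ r, (u, r) ∈ A then h.choose else m u

theorem lookup_image [DecidableEq Row] (R : Finset ℕ) (G m : ℕ → Row) (u : ℕ) :
    lookup (R.image fun u => (u, G u)) m u = if u ∈ R then G u else m u := by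
  classical
  unfold lookup
  by_cases h : u ∈ R
  · have hex : ∃ r, (u, r) ∈ R.image fun u => (u, G u) := ⟨G u, mem_image.2 ⟨u, h, rfl⟩⟩
    rw [dif_pos hex, if_pos h]
    obtain ⟨v, _, hv⟩ := mem_image.1 hex.choose_spec
    have h1 : v = u := congrArg Prod.fst hv
    have h2 : G v = hex.choose := congrArg Prod.snd hv
    rw [← h2, h1]
  · have hex : ¬ ∃ r, (u, r) ∈ R.image fun u => (u, G u) := by
      rintro ⟨r, hr⟩
      obtain ⟨v, hv, he⟩ := mem_image.1 hr
      have h1 : v = u := congrArg Prod.fst he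
      exact h (h1 ▸ hv)
    rw [dif_neg hex, if_neg h]

end Lookup

/-! ### Walks -/

/-- The abstract interface: walks in a storage. `vis1 ⊆ vis2 ⊆ vis3` are the ids visited in the
first part, the first two parts and all three parts; `ans` is the answer. -/
structure Walks (L V Row St : Type) (t : ℕ) where
  π : L → V
  vis1 : St → V → (ℕ → Row) → Finset ℕ
  vis2 : St → L → (ℕ → Row) → Finset ℕ
  vis3 : St → L → (ℕ → Row) → Finset ℕ
  ans : St → L → (ℕ → Row) → Bool
  sub12 : ∀ σ l m, vis1 σ (π l) m ⊆ vis2 σ l m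
  sub23 : ∀ σ l m, vis2 σ l m ⊆ vis3 σ l m
  cert2 : ∀ σ l m m', (∀ u ∈ vis2 σ l m, m' u = m u) → vis2 σ l m' = vis2 σ l m
  cert3 : ∀ σ l m m', (∀ u ∈ vis3 σ l m, m' u = m u) →
    vis3 σ l m' = vis3 σ l m ∧ ans σ l m' = ans σ l m
  size3 : ∀ σ l m, (vis3 σ l m \ vis2 σ l m).card ≤ t

section Decoder

variable {P L V Row St : Type} [Fintype P] [Fintype L] [Fintype V] [DecidableEq P]
  [DecidableEq L] [DecidableEq V] [DecidableEq Row]
  {N t κ s : ℕ} [NeZero κ]

/-- A message: start state, revealed rows, heavy ids, sampled rows. -/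
abbrev Message (Row St : Type) := St × Finset (ℕ × Row) × Finset ℕ × Finset (ℕ × Row)

namespace Walks

variable (W : Walks L V Row St t) (f : L → P) (M0 : ℕ → Row) (n2 : St → ℕ)

/-- The storage assumed by the decoder in the first two parts. -/
noncomputable def memA (q : Message Row St) : ℕ → Row := lookup q.2.1 M0

/-- The storage assumed by the decoder in the third part. -/
noncomputable def memB (q : Message Row St) (l : L) : ℕ → Row := fun u =>
  if u ∈ W.vis2 q.1 l (memA M0 q) then memA M0 q u else lookup q.2.2.2 (memA M0 q) u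

/-- The newly visited ids in the simulation. -/
noncomputable def Sd (q : Message Row St) (l : L) : Finset ℕ :=
  ((W.vis3 q.1 l (W.memB M0 q l) \ W.vis2 q.1 l (memA M0 q)).filter (· < n2 q.1)) \ q.2.2.1

open Classical in
/-- The decoder. -/
noncomputable def dec (O : Fin s → V) (Z : Fin N ⊕ L × Fin t → Fin κ) (q : Message Row St)
    (p : P) : Option Bool :=
  if h : ∃ l, f l = p ∧ (∃ τ, O τ = W.π l) ∧ Acc Z l (W.Sd M0 n2 q l) then
    some (W.ans q.1 h.choose (W.memB M0 q h.choose))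
  else none

end Walks

/-- The data that depend on the input `X`. -/
structure Inst (W : Walks L V Row St t) (M0 : ℕ → Row) (n2 : St → ℕ) (N : ℕ) where
  σ : St
  G : ℕ → Row
  T : Finset ℕ
  Tl : Finset ℕ
  n2_le : n2 σ ≤ N
  same : ∀ u, u ∉ T → u ∉ Tl → G u = M0 u
  fresh : ∀ u, n2 σ ≤ u → G u = M0 u

namespace Inst

variable {W : Walks L V Row St t} {M0 : ℕ → Row} {n2 : St → ℕ}
  (I : Inst W M0 n2 N) (f : L → P) (Λ Γ Gh : ℕ)

/-- The newly visited ids in the third part. -/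
def S (l : L) : Finset ℕ :=
  (W.vis3 I.σ l I.G \ W.vis2 I.σ l I.G).filter (· < n2 I.σ)

/-- Good leaves. -/
def good (l : L) : Prop :=
  Disjoint (W.vis2 I.σ l I.G \ W.vis1 I.σ (W.π l) I.G) (I.T \ I.Tl)

instance : DecidablePred I.good := fun l =>
  inferInstanceAs (Decidable (Disjoint _ _))

/-- The heavy ids. -/
def Hv : Finset ℕ := heavy f I.S Λ Γ Gh N

/-- The ids whose rows are revealed. -/
def R1 (O : Fin s → V) : Finset ℕ :=
  (I.Tl ∪ (univ.biUnion fun τ => W.vis1 I.σ (O τ) I.G) ∪ I.Hv f Λ Γ Gh).filter (· < n2 I.σ)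

/-- The sampled ids. -/
def R2 (Z : Fin N ⊕ L × Fin t → Fin κ) : Finset ℕ :=
  I.T.filter fun u => u < n2 I.σ ∧ ∃ h : u < N, Z (Sum.inl ⟨u, h⟩) = 0

/-- The message. -/
def msg (O : Fin s → V) (Z : Fin N ⊕ L × Fin t → Fin κ) : Message Row St :=
  (I.σ, (I.R1 f Λ Γ Gh O).image fun u => (u, I.G u), I.Hv f Λ Γ Gh,
    (I.R2 Z).image fun u => (u, I.G u))

/-- The storage assumed by the decoder. -/
def mA (O : Fin s → V) : ℕ → Row := fun u => if u ∈ I.R1 f Λ Γ Gh O then I.G u else M0 u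

theorem memA_msg (O : Fin s → V) (Z : Fin N ⊕ L × Fin t → Fin κ) :
    Walks.memA M0 (I.msg f Λ Γ Gh O Z) = I.mA f Λ Γ Gh O := by
  funext u
  exact lookup_image _ _ _ _

/-- The hybrid storage. -/
def mH (O : Fin s → V) (l : L) : ℕ → Row := fun u =>
  if u ∈ W.vis2 I.σ l (I.mA f Λ Γ Gh O) then I.mA f Λ Γ Gh O u else I.G u

/-- The newly visited ids in the hybrid storage that are not heavy. -/
def Sf (O : Fin s → V) (l : L) : Finset ℕ :=
  ((W.vis3 I.σ l (I.mH f Λ Γ Gh O l) \ W.vis2 I.σ l (I.mA f Λ Γ Gh O)).filter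
    (· < n2 I.σ)) \ I.Hv f Λ Γ Gh

theorem S_subset (l : L) : I.S l ⊆ range N := by
  intro u hu
  exact mem_range.2 (lt_of_lt_of_le (mem_filter.1 hu).2 I.n2_le)

theorem card_S_le (l : L) : (I.S l).card ≤ t :=
  le_trans (card_le_card (filter_subset _ _)) (W.size3 _ _ _)

theorem vis2_mH (O : Fin s → V) (l : L) :
    W.vis2 I.σ l (I.mH f Λ Γ Gh O l) = W.vis2 I.σ l (I.mA f Λ Γ Gh O) := by
  refine W.cert2 _ _ _ _ fun u hu => ?_
  simp [mH, hu]

theorem Sf_subset (O : Fin s → V) (l : L) : I.Sf f Λ Γ Gh O l ⊆ range N := by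
  intro u hu
  exact mem_range.2 (lt_of_lt_of_le (mem_filter.1 (mem_sdiff.1 hu).1).2 I.n2_le)

theorem card_Sf_le (O : Fin s → V) (l : L) : (I.Sf f Λ Γ Gh O l).card ≤ t := by
  refine le_trans (card_le_card (sdiff_subset.trans (filter_subset _ _))) ?_
  rw [← I.vis2_mH f Λ Γ Gh O l]
  exact W.size3 _ _ _

/-- For a good opened leaf the simulation of the first two parts is exact. -/
theorem mA_eq_of_good (O : Fin s → V) {l : L} (hl : I.good l) (hO : ∃ τ, O τ = W.π l) :
    ∀ u ∈ W.vis2 I.σ l I.G, I.mA f Λ Γ Gh O u = I.G u := by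
  intro u hu
  unfold mA
  split_ifs with h
  · rfl
  · -- `u` is not revealed
    by_cases hn : n2 I.σ ≤ u
    · exact (I.fresh u hn).symm
    · have hn' : u < n2 I.σ := not_le.1 hn
      have h1 : u ∉ I.Tl := fun hT => h (mem_filter.2
        ⟨mem_union_left _ (mem_union_left _ hT), hn'⟩)
      have h2 : u ∉ W.vis1 I.σ (W.π l) I.G := by
        intro hv
        obtain ⟨τ, hτ⟩ := hO
        refine h (mem_filter.2 ⟨mem_union_left _ (mem_union_right _
          (mem_biUnion.2 ⟨τ, mem_univ _, ?_⟩)), hn'⟩)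
        rw [hτ]; exact hv
      have h3 : u ∉ I.T := by
        intro hT
        exact disjoint_left.1 hl (mem_sdiff.2 ⟨hu, h2⟩) (mem_sdiff.2 ⟨hT, h1⟩)
      exact (I.same u h3 h1).symm

theorem Sf_eq_of_good (O : Fin s → V) {l : L} (hl : I.good l) (hO : ∃ τ, O τ = W.π l) :
    I.mH f Λ Γ Gh O l = I.G ∧ I.Sf f Λ Γ Gh O l = I.S l \ I.Hv f Λ Γ Gh := by
  have h1 := I.mA_eq_of_good f Λ Γ Gh O hl hO
  have h2 : W.vis2 I.σ l (I.mA f Λ Γ Gh O) = W.vis2 I.σ l I.G := W.cert2 _ _ _ _ h1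
  have h3 : I.mH f Λ Γ Gh O l = I.G := by
    funext u
    unfold mH
    rw [h2]
    split_ifs with h
    · exact h1 u h
    · rfl
  refine ⟨h3, ?_⟩
  unfold Sf S
  rw [h2, h3]

/-- The decoder's storage and the hybrid storage agree on a visited set if all the new ids in
it are heavy or sampled. -/
theorem memB_eq (O : Fin s → V) (Z : Fin N ⊕ L × Fin t → Fin κ) (l : L) (A : Finset ℕ)
    (hA : ∀ u ∈ A, u ∉ W.vis2 I.σ l (I.mA f Λ Γ Gh O) → u < n2 I.σ →
      u ∉ I.Hv f Λ Γ Gh → ∀ h : u < N, Z (Sum.inl ⟨u, h⟩) = 0) :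
    ∀ u ∈ A, W.memB M0 (I.msg f Λ Γ Gh O Z) l u = I.mH f Λ Γ Gh O l u := by
  intro u hu
  unfold Walks.memB mH
  rw [memA_msg]
  show (if u ∈ W.vis2 I.σ l (I.mA f Λ Γ Gh O) then _ else _) = _
  split_ifs with h1
  · rfl
  · have h2 : lookup (I.msg f Λ Γ Gh O Z).2.2.2 (I.mA f Λ Γ Gh O) u =
        if u ∈ I.R2 Z then I.G u else I.mA f Λ Γ Gh O u := lookup_image _ _ _ _
    rw [h2]
    split_ifs with h3
    · rfl
    · unfold mA
      split_ifs with h4
      · rfl
      · by_cases hn : n2 I.σ ≤ u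
        · exact (I.fresh u hn).symm
        · have hn' : u < n2 I.σ := not_le.1 hn
          have hN : u < N := lt_of_lt_of_le hn' I.n2_le
          have h5 : u ∉ I.Tl := fun hT => h4 (mem_filter.2
            ⟨mem_union_left _ (mem_union_left _ hT), hn'⟩)
          have h6 : u ∉ I.Hv f Λ Γ Gh := fun hT => h4 (mem_filter.2
            ⟨mem_union_right _ hT, hn'⟩)
          have h7 := hA u hu h1 hn' h6 hN
          have h8 : u ∉ I.T := fun hT => h3 (mem_filter.2 ⟨hT, hn', hN, h7⟩)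
          exact (I.same u h8 h5).symm

theorem mem_inl_accSet {l : L} {A : Finset ℕ} {u : ℕ} (hu : u ∈ A) (h : u < N) :
    (Sum.inl ⟨u, h⟩ : Fin N ⊕ L × Fin t) ∈ accSet N t l A := by
  simp [accSet, hu]

theorem acc_iff (O : Fin s → V) (Z : Fin N ⊕ L × Fin t → Fin κ) (l : L) :
    (Acc Z l (W.Sd M0 n2 (I.msg f Λ Γ Gh O Z) l) ↔ Acc Z l (I.Sf f Λ Γ Gh O l)) ∧
    (Acc Z l (I.Sf f Λ Γ Gh O l) →
      W.ans I.σ l (W.memB M0 (I.msg f Λ Γ Gh O Z) l) = W.ans I.σ l (I.mH f Λ Γ Gh O l)) := by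
  have hSd : W.Sd M0 n2 (I.msg f Λ Γ Gh O Z) l =
      ((W.vis3 I.σ l (W.memB M0 (I.msg f Λ Γ Gh O Z) l) \
        W.vis2 I.σ l (I.mA f Λ Γ Gh O)).filter (· < n2 I.σ)) \ I.Hv f Λ Γ Gh := by
    unfold Walks.Sd
    rw [memA_msg]
    rfl
  have key1 : Acc Z l (I.Sf f Λ Γ Gh O l) →
      W.vis3 I.σ l (W.memB M0 (I.msg f Λ Γ Gh O Z) l) = W.vis3 I.σ l (I.mH f Λ Γ Gh O l) ∧
      W.ans I.σ l (W.memB M0 (I.msg f Λ Γ Gh O Z) l) = W.ans I.σ l (I.mH f Λ Γ Gh O l) := by
    intro hacc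
    refine W.cert3 _ _ _ _ (I.memB_eq f Λ Γ Gh O Z l _ ?_)
    intro u hu h1 h2 h3 hN
    exact hacc _ (mem_inl_accSet (mem_sdiff.2 ⟨mem_filter.2 ⟨mem_sdiff.2 ⟨hu, h1⟩, h2⟩, h3⟩) hN)
  have key2 : Acc Z l (W.Sd M0 n2 (I.msg f Λ Γ Gh O Z) l) →
      W.vis3 I.σ l (I.mH f Λ Γ Gh O l) = W.vis3 I.σ l (W.memB M0 (I.msg f Λ Γ Gh O Z) l) := by
    intro hacc
    rw [hSd] at hacc
    refine (W.cert3 _ _ _ _ fun u hu => (I.memB_eq f Λ Γ Gh O Z l _ ?_ u hu).symm).1
    intro u hu h1 h2 h3 hN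
    exact hacc _ (mem_inl_accSet (mem_sdiff.2 ⟨mem_filter.2 ⟨mem_sdiff.2 ⟨hu, h1⟩, h2⟩, h3⟩) hN)
  refine ⟨⟨fun h => ?_, fun h => ?_⟩, fun h => (key1 h).2⟩
  · have := key2 h
    rw [hSd, ← this] at h
    exact h
  · have := (key1 h).1
    rw [hSd, this]
    exact h

theorem dec_ne_none_iff (O : Fin s → V) (Z : Fin N ⊕ L × Fin t → Fin κ) (p : P) :
    W.dec f M0 n2 O Z (I.msg f Λ Γ Gh O Z) p ≠ none ↔
      p ∈ Dset f W.π (I.Sf f Λ Γ Gh) O Z := by
  classical
  unfold Walks.dec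
  have : (∃ l, f l = p ∧ (∃ τ, O τ = W.π l) ∧ Acc Z l (W.Sd M0 n2 (I.msg f Λ Γ Gh O Z) l)) ↔
      p ∈ Dset f W.π (I.Sf f Λ Γ Gh) O Z := by
    simp only [Dset, mem_filter, mem_univ, true_and]
    refine exists_congr fun l => and_congr_right fun _ => and_congr_right fun _ => ?_
    exact (I.acc_iff f Λ Γ Gh O Z l).1
  rw [← this]
  split_ifs with h
  · simp [h]
  · simp [h]

theorem card_err_le (O : Fin s → V) (Z : Fin N ⊕ L × Fin t → Fin κ) (X : P → Bool)
    (hans : ∀ l, W.ans I.σ l I.G = X (f l)) :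
    (univ.filter fun p => W.dec f M0 n2 O Z (I.msg f Λ Γ Gh O Z) p ≠ none ∧
      W.dec f M0 n2 O Z (I.msg f Λ Γ Gh O Z) p ≠ some (X p)).card ≤
    (Bset I.good W.π (I.Sf f Λ Γ Gh) O Z).card := by
  classical
  set q := I.msg f Λ Γ Gh O Z with hq
  have hex : ∀ p, W.dec f M0 n2 O Z q p ≠ none → W.dec f M0 n2 O Z q p ≠ some (X p) →
      ∃ l, f l = p ∧ l ∈ Bset I.good W.π (I.Sf f Λ Γ Gh) O Z := by
    intro p h1 h2
    by_cases h : ∃ l, f l = p ∧ (∃ τ, O τ = W.π l) ∧ Acc Z l (W.Sd M0 n2 q l)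
    · have hdec : W.dec f M0 n2 O Z q p = some (W.ans q.1 h.choose (W.memB M0 q h.choose)) := by
        unfold Walks.dec
        rw [dif_pos h]
      obtain ⟨hf, hO, hacc⟩ := h.choose_spec
      set l := h.choose
      have h3 := I.acc_iff f Λ Γ Gh O Z l
      have hacc' := h3.1.1 hacc
      refine ⟨l, hf, mem_filter.2 ⟨mem_univ _, ?_, hO, hacc'⟩⟩
      intro hgood
      apply h2
      rw [hdec]
      congr 1
      have h4 := h3.2 hacc'
      have h5 := (I.Sf_eq_of_good f Λ Γ Gh O hgood hO).1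
      have h6 : W.ans q.1 l (W.memB M0 q l) = W.ans I.σ l (W.memB M0 q l) := rfl
      rw [h6, hq, h4, h5, hans l, hf]
    · exfalso
      apply h1
      unfold Walks.dec
      rw [dif_neg h]
  refine le_trans (card_le_card ?_) (card_image_le (f := f))
  intro p hp
  obtain ⟨h1, h2⟩ := (mem_filter.1 hp).2
  obtain ⟨l, hl, hl'⟩ := hex p h1 h2
  exact mem_image.2 ⟨l, hl', hl⟩

end Inst

end Decoder

end Pool.Agent.Helper1.KU
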