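import Mathlib

/-!
# Storage modification machines and Kolmogorov-Uspenskii machines

Definitions used in the statement of the hand-in for `MP_538d4f_lc`.
-/

namespace Pool.Agent.Helper1.KU

/-! ## Storage modification machines (Schönhage) -/

/-- Instructions of a storage modification machine with pointer alphabet `Fin d` and with
`n` program lines. -/
inductive SInstr (d n : ℕ)
  /-- create a new vertex, place it at the end of the path `w`; all its pointers go to the
  old end of `w`; continue at line `next` -/
  | new (w : List (Fin d)) (next : Fin n)
  /-- redirect the last edge of the path `w` to the end of the path `v` -/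
  | set (w v : List (Fin d)) (next : Fin n)
  /-- do the paths `w` and `v` end at the same vertex? -/
  | test (w v : List (Fin d)) (same different : Fin n)
  /-- read the next input bit and branch -/
  | read (next : Bool → Fin n)
  /-- write an output bit -/
  | write (b : Bool) (next : Fin n)

/-- A storage modification machine. -/
structure SMM where
  /-- size of the pointer alphabet -/
  d : ℕ
  /-- number of program lines -/
  n : ℕ
  /-- the first line -/
  start : Fin n
  /-- the program -/
  prog : Fin n → SInstr d n

/-- A configuration. The vertices are `0, …, size - 1`; the edge with letter `a` out of the
vertex `u` goes to `ptr u a`. -/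
structure SConf (d n : ℕ) where
  line : Fin n
  centre : ℕ
  ptr : ℕ → Fin d → ℕ
  size : ℕ
  /-- number of input bits read so far -/
  reads : ℕ
  /-- the output written so far, last bit first -/
  out : List Bool

/-- The end of the path with label `w` that starts at `u`. -/
def follow {d : ℕ} (ptr : ℕ → Fin d → ℕ) : ℕ → List (Fin d) → ℕ
  | u, [] => u
  | u, a :: w => follow ptr (ptr u a) w

/-- The end of the path `w` from the centre. -/
def SConf.endpt {d n : ℕ} (c : SConf d n) (w : List (Fin d)) : ℕ :=
  follow c.ptr c.centre w

/-- Redirect the last edge of the path `w` from the centre to `y` (for the empty path: make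
`y` the centre). -/
def SConf.redirect {d n : ℕ} (c : SConf d n) (w : List (Fin d)) (y : ℕ) : SConf d n :=
  match w.getLast? with
  | none => { c with centre := y }
  | some a =>
    { c with
      ptr := Function.update c.ptr (c.endpt w.dropLast)
        (Function.update (c.ptr (c.endpt w.dropLast)) a y) }

/-- One step of a storage modification machine on the input stream `x`. -/
def SMM.step (M : SMM) (x : ℕ → Bool) (c : SConf M.d M.n) : SConf M.d M.n :=
  match M.prog c.line with
  | .new w next =>
    ({ c with
        line := next
        ptr := Function.update c.ptr c.size (fun _ => c.endpt w)
        size := c.size + 1 } : SConf M.d M.n).redirect w c.size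
  | .set w v next => ({ c with line := next } : SConf M.d M.n).redirect w (c.endpt v)
  | .test w v same different =>
    { c with line := if c.endpt w = c.endpt v then same else different }
  | .read next => { c with line := next (x c.reads), reads := c.reads + 1 }
  | .write b next => { c with line := next, out := b :: c.out }

/-- The initial configuration: one vertex, all its edges are loops. -/
def SMM.init (M : SMM) : SConf M.d M.n := ⟨M.start, 0, fun _ _ => 0, 1, 0, []⟩

/-- The configuration after `t` steps on the input stream `x`. -/
def SMM.run (M : SMM) (x : ℕ → Bool) (t : ℕ) : SConf M.d M.n := (M.step x)^[t] M.init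

/-! ## Kolmogorov-Uspenskii machines -/

/-- Label paths of length at most `r` over the alphabet `Fin D`. -/
abbrev Word (D r : ℕ) := {w : List (Fin D) // w.length ≤ r}

/-- Storage of a Kolmogorov-Uspenskii machine with label alphabet `Fin D`. Every vertex `u`
has `D` places, one for each label; `E u a = some (v, b)` means that an edge joins place `a`
of `u` to place `b` of `v`. -/
abbrev Edges (D : ℕ) := ℕ → Fin D → Option (ℕ × Fin D)

/-- The end of the path with label `w` that starts at `u`, if there is such a path. -/
def endOf {D : ℕ} (E : Edges D) : ℕ → List (Fin D) → Option ℕ
  | u, [] => some u
  | u, a :: w =>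
    match E u a with
    | none => none
    | some (v, _) => endOf E v w

/-- Names for vertices in one step: the end of a label path of length at most `r` from the
head, or the `i`-th vertex created in this step. -/
inductive Ref (D r : ℕ)
  | old (w : Word D r)
  | new (i : ℕ)

/-- Elementary changes of the storage. -/
inductive Op (D r : ℕ)
  /-- add an edge between place `a` of `u` and place `b` of `v` (if both are free) -/
  | join (u : Ref D r) (a : Fin D) (v : Ref D r) (b : Fin D)
  /-- delete the edge at place `a` of `u` (if there is one) -/
  | cut (u : Ref D r) (a : Fin D)

/-- What a machine with `n` states does in one step. -/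
inductive KAct (D n r : ℕ)
  /-- create `k` new vertices without edges, perform the changes `ops`, move the head to
  `head` and go to the state `next` -/
  | rewrite (k : ℕ) (ops : List (Op D r)) (head : Ref D r) (next : Fin n)
  /-- read the next input bit and branch -/
  | read (next : Bool → Fin n)
  /-- write an output bit -/
  | write (b : Bool) (next : Fin n)

/-- A Kolmogorov-Uspenskii machine. Its action in one step depends on the state and on the
answers to all the questions 'do the label paths `w` and `v` from the head exist and end at
the same vertex?' for paths of length at most `r`. -/
structure KUM where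
  /-- number of labels, a bound for the degree -/
  D : ℕ
  /-- number of states -/
  n : ℕ
  /-- radius of the neighbourhood of the head that the machine sees and changes -/
  r : ℕ
  start : Fin n
  act : Fin n → (Word D r → Word D r → Bool) → KAct D n r

/-- A configuration. The vertices are `0, …, size - 1`. -/
structure KConf (D n : ℕ) where
  state : Fin n
  head : ℕ
  edges : Edges D
  size : ℕ
  /-- number of input bits read so far -/
  reads : ℕ
  /-- the output written so far, last bit first -/
  out : List Bool

/-- The answers of all tests on paths of length at most `r`. -/
def view {D : ℕ} (r : ℕ) (E : Edges D) (h : ℕ) (w v : Word D r) : Bool :=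
  decide (endOf E h w.1 ≠ none ∧ endOf E h w.1 = endOf E h v.1)

/-- Overwrite place `a` of the vertex `u`. -/
def setPlace {D : ℕ} (E : Edges D) (u : ℕ) (a : Fin D) (e : Option (ℕ × Fin D)) : Edges D :=
  Function.update E u (Function.update (E u) a e)

/-- The vertex that a name stands for; `h` is the head, `s` the number of old vertices and `k`
the number of new ones. -/
def Ref.val {D r : ℕ} (E : Edges D) (h s k : ℕ) : Ref D r → Option ℕ
  | .old w => endOf E h w.1
  | .new i => if i < k then some (s + i) else none

/-- Perform an elementary change, where `val` says which vertices the names stand for. -/
def Op.apply {D r : ℕ} (val : Ref D r → Option ℕ) (E : Edges D) : Op D r → Edges D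
  | .join u a v b =>
    match val u, val v with
    | some p, some q =>
      if E p a = none ∧ E q b = none then
        setPlace (setPlace E p a (some (q, b))) q b (some (p, a))
      else E
    | _, _ => E
  | .cut u a =>
    match val u with
    | some p =>
      match E p a with
      | some (q, b) => setPlace (setPlace E p a none) q b none
      | none => E
    | none => E

/-- Add the vertices `s, …, s + k - 1`, without edges. -/
def addVertices {D : ℕ} (E : Edges D) (s k : ℕ) : Edges D :=
  fun u => if s ≤ u ∧ u < s + k then fun _ => none else E u

/-- One step of a Kolmogorov-Uspenskii machine on the input stream `x`. -/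
def KUM.step (K : KUM) (x : ℕ → Bool) (c : KConf K.D K.n) : KConf K.D K.n :=
  match K.act c.state (view K.r c.edges c.head) with
  | .rewrite k ops head next =>
    { c with
      state := next
      head := (Ref.val c.edges c.head c.size k head).getD c.head
      edges := ops.foldl (Op.apply (Ref.val c.edges c.head c.size k))
        (addVertices c.edges c.size k)
      size := c.size + k }
  | .read next => { c with state := next (x c.reads), reads := c.reads + 1 }
  | .write b next => { c with state := next, out := b :: c.out }

/-- The initial configuration: one vertex and no edges. -/
def KUM.init (K : KUM) : KConf K.D K.n := ⟨K.start, 0, fun _ _ => none, 1, 0, []⟩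

/-- The configuration after `t` steps on the input stream `x`. -/
def KUM.run (K : KUM) (x : ℕ → Bool) (t : ℕ) : KConf K.D K.n := (K.step x)^[t] K.init

/-! ## Real-time simulation -/

/-- `K` simulates `M` in real time: for some constant `c` and for every input stream, each
step of `M` is carried out by at most `c` consecutive steps of `K` (the `t`-th step of `M` by
the steps of `K` numbered `τ t + 1, …, τ (t + 1)`), and after corresponding steps both
machines have read the same part of the input and have written the same output. -/
def RealTimeSimulates (K : KUM) (M : SMM) : Prop :=
  ∃ c : ℕ, ∀ x : ℕ → Bool, ∃ τ : ℕ → ℕ, τ 0 = 0 ∧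
    (∀ t, τ t ≤ τ (t + 1) ∧ τ (t + 1) ≤ τ t + c) ∧
    ∀ t, (K.run x (τ t)).reads = (M.run x t).reads ∧ (K.run x (τ t)).out = (M.run x t).out

end Pool.Agent.Helper1.KU
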