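import Pool.Agent.Helper1.KU.Defs

/-!
# Command level execution of a Kolmogorov-Uspenskii machine

The input is read in blocks of three bits (commands). `cmdRun K F g c` runs `K` for at most `F`
micro-steps on the bits of the command `g`, until it writes an output bit.
-/

namespace Pool.Agent.Helper1.KU

/-- The eight commands of the storage modification machine `mach`. -/
inductive Cmd
  | H | W0 | W1 | N | K | S0 | S1 | A
  deriving DecidableEq

/-- The three bits that code a command (read in the order 0, 1, 2). -/
def Cmd.bits : Cmd → ℕ → Bool
  | .H, _ => false
  | .W0, i => i == 2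
  | .W1, i => i == 1
  | .N, i => i == 1 || i == 2
  | .K, i => i == 0
  | .S0, i => i == 0 || i == 2
  | .S1, i => i == 0 || i == 1
  | .A, _ => true

/-- The walk command for a bit. -/
def Cmd.walk : Bool → Cmd
  | false => .W0
  | true => .W1

/-- Vertices at distance at most `n`. -/
def ball {D : ℕ} (E : Edges D) : ℕ → ℕ → Finset ℕ
  | 0, u => {u}
  | n + 1, u => insert u (Finset.univ.biUnion fun a : Fin D =>
      match E u a with
      | none => ∅
      | some (v, _) => ball E n v)

/-- A configuration inside the execution of a command: `pos` bits of the command are read,
`bit` is the output bit, if it is already written. -/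
structure Mic (D n : ℕ) where
  state : Fin n
  head : ℕ
  size : ℕ
  edges : Edges D
  pos : ℕ
  bit : Option Bool

/-- Number of vertices created by an action. -/
def KAct.created {D n r : ℕ} : KAct D n r → ℕ
  | .rewrite k _ _ _ => k
  | .read _ => 0
  | .write _ _ => 0

/-- One micro-step; the configuration is frozen once the output bit is written. -/
def micStep (K : KUM) (b : ℕ → Bool) (c : Mic K.D K.n) : Mic K.D K.n :=
  if c.bit.isSome then c else
  match K.act c.state (view K.r c.edges c.head) with
  | .rewrite k ops head next =>
    { c with
      state := next
      head := (Ref.val c.edges c.head c.size k head).getD c.head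
      edges := ops.foldl (Op.apply (Ref.val c.edges c.head c.size k))
        (addVertices c.edges c.size k)
      size := c.size + k }
  | .read next => { c with state := next (b c.pos), pos := c.pos + 1 }
  | .write o next => { c with state := next, bit := some o }

/-- The vertices seen, changed or created in one micro-step. -/
def micVis (K : KUM) (c : Mic K.D K.n) : Finset ℕ :=
  if c.bit.isSome then ∅ else
  ball c.edges (K.r + 1) c.head ∪
    Finset.Ico c.size (c.size + (K.act c.state (view K.r c.edges c.head)).created)

/-- Prepare for the next command. -/
def Mic.reset {D n : ℕ} (c : Mic D n) : Mic D n := { c with pos := 0, bit := none }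

/-- Execute one command (at most `F` micro-steps). -/
def cmdRun (K : KUM) (F : ℕ) (g : Cmd) (c : Mic K.D K.n) : Mic K.D K.n :=
  (micStep K g.bits)^[F] c.reset

/-- The vertices visited while one command is executed. -/
def cmdVis (K : KUM) (F : ℕ) (g : Cmd) (c : Mic K.D K.n) : Finset ℕ :=
  (Finset.range F).biUnion fun i => micVis K ((micStep K g.bits)^[i] c.reset)

/-- Execute a list of commands. -/
def wordRun (K : KUM) (F : ℕ) : List Cmd → Mic K.D K.n → Mic K.D K.n
  | [], c => c
  | g :: w, c => wordRun K F w (cmdRun K F g c)

/-- The vertices visited while a list of commands is executed. -/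
def wordVis (K : KUM) (F : ℕ) : List Cmd → Mic K.D K.n → Finset ℕ
  | [], _ => ∅
  | g :: w, c => cmdVis K F g c ∪ wordVis K F w (cmdRun K F g c)

/-- The initial configuration. -/
def micInit (K : KUM) : Mic K.D K.n := ⟨K.start, 0, 1, fun _ _ => none, 0, none⟩

/-- Well-formed storage: vertices are smaller than `size`, edges are symmetric. -/
structure WF {D n : ℕ} (c : Mic D n) : Prop where
  head_lt : c.head < c.size
  free : ∀ u a, c.size ≤ u → c.edges u a = none
  lt : ∀ u a v b, c.edges u a = some (v, b) → v < c.size
  symm : ∀ u a v b, c.edges u a = some (v, b) → c.edges v b = some (u, a)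

end Pool.Agent.Helper1.KU
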