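import Pool.Agent.Helper1.KU.Sample

/-!
# Expected numbers of decoded points and of accepted bad leaves
-/

namespace Pool.Agent.Helper1.KU

open Finset

section

variable {P L V : Type} [Fintype P] [Fintype L] [Fintype V] [DecidableEq P] [DecidableEq L]
  [DecidableEq V]

/-- The points for which some opened leaf is accepted. -/
def Dset {N t κ s : ℕ} [NeZero κ] (f : L → P) (π : L → V) (Sf : (Fin s → V) → L → Finset ℕ)
    (O : Fin s → V) (Z : Fin N ⊕ L × Fin t → Fin κ) : Finset P :=
  univ.filter fun p => ∃ l, f l = p ∧ (∃ τ, O τ = π l) ∧ Acc Z l (Sf O l)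

/-- The bad leaves that are opened and accepted. -/
def Bset {N t κ s : ℕ} [NeZero κ] (good : L → Prop) [DecidablePred good] (π : L → V)
    (Sf : (Fin s → V) → L → Finset ℕ)
    (O : Fin s → V) (Z : Fin N ⊕ L × Fin t → Fin κ) : Finset L :=
  univ.filter fun l => ¬ good l ∧ (∃ τ, O τ = π l) ∧ Acc Z l (Sf O l)

variable {f : L → P} {π : L → V} {S : L → Finset ℕ} {Λ Γ Gh N t κ s : ℕ} [NeZero κ]
  {good : L → Prop} [DecidablePred good]

theorem sum_Bset_le [Nonempty V] (Sf : (Fin s → V) → L → Finset ℕ)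
    (hSf : ∀ O l, Sf O l ⊆ range N ∧ (Sf O l).card ≤ t) :
    (∑ O : Fin s → V, ∑ Z : Fin N ⊕ L × Fin t → Fin κ, ((Bset good π Sf O Z).card : ℝ)) ≤
      (Fintype.card V : ℝ) ^ s * (κ : ℝ) ^ Fintype.card (Fin N ⊕ L × Fin t) *
        ((univ.filter fun l => ¬ good l).card * (s / (Fintype.card V * (κ : ℝ) ^ t))) := by
  have hκ : (0 : ℝ) < κ := by exact_mod_cast Nat.pos_of_ne_zero (NeZero.ne κ)
  have hV : (0 : ℝ) < Fintype.card V := by exact_mod_cast Fintype.card_pos
  set ZT : ℝ := (κ : ℝ) ^ Fintype.card (Fin N ⊕ L × Fin t) with hZT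
  have hacc : ∀ l (A : Finset ℕ), A ⊆ range N → A.card ≤ t →
      ((univ.filter fun Z : Fin N ⊕ L × Fin t → Fin κ => Acc Z l A).card : ℝ) =
        ZT / (κ : ℝ) ^ t := by
    intro l A hA ht
    have := congrArg (Nat.cast : ℕ → ℝ) (card_acc (κ := κ) l hA ht)
    push_cast at this
    rw [eq_div_iff (by positivity), this]
  have h1 : ∀ O : Fin s → V, (∑ Z : Fin N ⊕ L × Fin t → Fin κ, ((Bset good π Sf O Z).card : ℝ)) =
      ∑ l ∈ univ.filter (fun l => ¬ good l), if (∃ τ, O τ = π l) then ZT / (κ : ℝ) ^ t else 0 := by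
    intro O
    have : ∀ Z : Fin N ⊕ L × Fin t → Fin κ, ((Bset good π Sf O Z).card : ℝ) =
        ∑ l ∈ univ.filter (fun l => ¬ good l),
          if (∃ τ, O τ = π l) ∧ Acc Z l (Sf O l) then (1 : ℝ) else 0 := by
      intro Z
      rw [← sum_filter, sum_const, nsmul_eq_mul, mul_one, filter_filter]
      rfl
    simp only [this]
    rw [sum_comm]
    refine sum_congr rfl fun l _ => ?_
    by_cases h : ∃ τ, O τ = π l
    · simp only [h, true_and, if_true]
      rw [← hacc l (Sf O l) (hSf O l).1 (hSf O l).2, ← sum_filter, sum_const, nsmul_eq_mul,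
        mul_one]
    · simp [h]
  simp only [h1]
  rw [sum_comm]
  have h2 : ∀ l : L, (∑ O : Fin s → V, if (∃ τ, O τ = π l) then ZT / (κ : ℝ) ^ t else 0) ≤
      (Fintype.card V : ℝ) ^ s * ZT * (s / (Fintype.card V * (κ : ℝ) ^ t)) := by
    intro l
    rw [← sum_filter, sum_const, nsmul_eq_mul]
    calc _ ≤ (Fintype.card V : ℝ) ^ s * (s / Fintype.card V) * (ZT / (κ : ℝ) ^ t) :=
          mul_le_mul_of_nonneg_right (card_meet_le s (π l)) (by positivity)
      _ = _ := by field_simp
  calc _ ≤ ∑ _l ∈ univ.filter (fun l => ¬ good l),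
        (Fintype.card V : ℝ) ^ s * ZT * (s / (Fintype.card V * (κ : ℝ) ^ t)) :=
        sum_le_sum fun l _ => h2 l
    _ = _ := by rw [sum_const, nsmul_eq_mul]; ring

/-- Pairs of leaves with a common newly visited vertex. -/
theorem card_meeting_le
    (hS : ∀ l, S l ⊆ range N) (hSt : ∀ l, (S l).card ≤ t) {p : P}
    (hp : p ∉ cluster f S Λ Γ Gh N) (l : L) :
    Γ * (univ.filter fun l' => f l' = p ∧
      ¬ Disjoint (S l \ heavy f S Λ Γ Gh N) (S l' \ heavy f S Λ Γ Gh N)).card ≤ t * Λ := by
  set Hv := heavy f S Λ Γ Gh N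
  have hsub : (univ.filter fun l' => f l' = p ∧ ¬ Disjoint (S l \ Hv) (S l' \ Hv)) ⊆
      (S l \ Hv).biUnion fun y => univ.filter fun l' => f l' = p ∧ y ∈ S l' := by
    intro l' hl'
    obtain ⟨h1, h2⟩ := (mem_filter.1 hl').2
    obtain ⟨y, hy1, hy2⟩ := not_disjoint_iff.1 h2
    exact mem_biUnion.2 ⟨y, hy1, mem_filter.2 ⟨mem_univ _, h1, (mem_sdiff.1 hy2).1⟩⟩
  calc Γ * _ ≤ Γ * ∑ y ∈ S l \ Hv, pop f S y p :=
        Nat.mul_le_mul_left _ ((card_le_card hsub).trans card_biUnion_le)
    _ = ∑ y ∈ S l \ Hv, Γ * pop f S y p := mul_sum _ _ _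
    _ ≤ ∑ _y ∈ S l \ Hv, Λ := by
        refine sum_le_sum fun y hy => ?_
        obtain ⟨h1, h2⟩ := mem_sdiff.1 hy
        by_contra hcon
        exact hp (mem_filter.2 ⟨mem_univ _, y, hS l h1, h2, (not_le.1 hcon).le⟩)
    _ = (S l \ Hv).card * Λ := by rw [sum_const, smul_eq_mul]
    _ ≤ t * Λ := Nat.mul_le_mul_right _ (le_trans (card_le_card sdiff_subset) (hSt l))

theorem sum_Dset_ge [Nonempty V] (Sf : (Fin s → V) → L → Finset ℕ)
    (hΛ : 0 < Λ) (hΓ : 0 < Γ)
    (hfib : ∀ p, (univ.filter fun l => f l = p).card = Λ)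
    (hinj : ∀ l l', π l = π l' → f l = f l' → l = l')
    (hS : ∀ l, S l ⊆ range N) (hSt : ∀ l, (S l).card ≤ t)
    (hgood : ∀ O l, good l → (∃ τ, O τ = π l) → Sf O l = S l \ heavy f S Λ Γ Gh N)
    (hκ : (1 : ℝ) / Λ + t / Γ ≤ 1 / (κ : ℝ) ^ t) {μ : ℝ}
    (hμ : μ = s * Λ / (Fintype.card V * (κ : ℝ) ^ t)) :
    (Fintype.card V : ℝ) ^ s * (κ : ℝ) ^ Fintype.card (Fin N ⊕ L × Fin t) *
        ((Fintype.card P - (cluster f S Λ Γ Gh N).card) * (μ - 2 * μ ^ 2) -
          (univ.filter fun l => ¬ good l).card * (s / (Fintype.card V * (κ : ℝ) ^ t))) ≤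
    ∑ O : Fin s → V, ∑ Z : Fin N ⊕ L × Fin t → Fin κ, ((Dset f π Sf O Z).card : ℝ) := by
  have hκ0 : (0 : ℝ) < κ := by exact_mod_cast Nat.pos_of_ne_zero (NeZero.ne κ)
  have hV : (0 : ℝ) < Fintype.card V := by exact_mod_cast Fintype.card_pos
  have hΛr : (0 : ℝ) < Λ := by exact_mod_cast hΛ
  have hΓr : (0 : ℝ) < Γ := by exact_mod_cast hΓ
  set ZT : ℝ := (κ : ℝ) ^ Fintype.card (Fin N ⊕ L × Fin t) with hZT
  set q : ℝ := 1 / (κ : ℝ) ^ t with hq
  have hq0 : 0 < q := by positivity
  have hZT0 : 0 < ZT := by positivity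
  set Hv := heavy f S Λ Γ Gh N with hHv
  set C := cluster f S Λ Γ Gh N with hC
  have hSH : ∀ l, S l \ Hv ⊆ range N := fun l => sdiff_subset.trans (hS l)
  have hSHt : ∀ l, (S l \ Hv).card ≤ t := fun l =>
    le_trans (card_le_card sdiff_subset) (hSt l)
  -- one point
  have key : ∀ p, p ∉ C →
      (Fintype.card V : ℝ) ^ s * ZT * (μ - 2 * μ ^ 2 -
        (univ.filter fun l => f l = p ∧ ¬ good l).card * (s / (Fintype.card V * (κ : ℝ) ^ t))) ≤
      ∑ Z : Fin N ⊕ L × Fin t → Fin κ,
        ((univ.filter fun O : Fin s → V => p ∈ Dset f π Sf O Z).card : ℝ) := by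
    intro p hp
    -- the accepted good leaves
    let Φ : (Fin N ⊕ L × Fin t → Fin κ) → Finset L := fun Z =>
      univ.filter fun l => (f l = p ∧ good l) ∧ Acc Z l (S l \ Hv)
    have hcardA : ∀ Z, ((Φ Z).image π).card = (Φ Z).card := by
      intro Z
      refine card_image_of_injOn ?_
      intro l hl l' hl' h
      have h1 := (mem_filter.1 (mem_coe.1 hl)).2.1.1
      have h2 := (mem_filter.1 (mem_coe.1 hl')).2.1.1
      exact hinj l l' h (h1.trans h2.symm)
    have step1 : ∀ Z, (Fintype.card V : ℝ) ^ s * (s * ((Φ Z).card / Fintype.card V) -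
        (s * ((Φ Z).card / Fintype.card V)) ^ 2) ≤
        ((univ.filter fun O : Fin s → V => p ∈ Dset f π Sf O Z).card : ℝ) := by
      intro Z
      have := card_meet_ge s ((Φ Z).image π)
      rw [hcardA] at this
      refine this.trans ?_
      norm_cast
      refine card_le_card fun O hO => ?_
      obtain ⟨τ, hτ⟩ := (mem_filter.1 hO).2
      obtain ⟨l, hl, hl2⟩ := mem_image.1 hτ
      obtain ⟨⟨h1, h2⟩, h3⟩ := (mem_filter.1 hl).2
      refine mem_filter.2 ⟨mem_univ _, mem_filter.2 ⟨mem_univ _, l, h1, ⟨τ, hl2.symm⟩, ?_⟩⟩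
      rw [hgood O l h2 ⟨τ, hl2.symm⟩]
      exact h3
    -- first moment
    have hacc : ∀ l, ((univ.filter fun Z : Fin N ⊕ L × Fin t → Fin κ =>
        Acc Z l (S l \ Hv)).card : ℝ) = ZT * q := by
      intro l
      have := congrArg (Nat.cast : ℕ → ℝ) (card_acc (κ := κ) l (hSH l) (hSHt l))
      push_cast at this
      rw [hq, mul_one_div, eq_div_iff (by positivity), this]
    have m1 : ∑ Z, ((Φ Z).card : ℝ) =
        (univ.filter fun l => f l = p ∧ good l).card * (ZT * q) := by
      have : ∀ Z, ((Φ Z).card : ℝ) = ∑ l ∈ univ.filter (fun l => f l = p ∧ good l),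
          if Acc Z l (S l \ Hv) then (1 : ℝ) else 0 := by
        intro Z
        rw [← sum_filter, sum_const, nsmul_eq_mul, mul_one, filter_filter]
      simp only [this]
      rw [sum_comm]
      rw [sum_congr rfl fun l _ => (by
        rw [← sum_filter, sum_const, nsmul_eq_mul, mul_one, hacc l] :
        (∑ Z : Fin N ⊕ L × Fin t → Fin κ, if Acc Z l (S l \ Hv) then (1 : ℝ) else 0) = ZT * q)]
      rw [sum_const, nsmul_eq_mul]
    -- second moment
    have m2 : ∑ Z, ((Φ Z).card : ℝ) ^ 2 ≤ ZT * (2 * Λ ^ 2 * q ^ 2) := by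
      let Fb : Finset L := univ.filter fun l => f l = p ∧ good l
      have hFb : (Fb.card : ℝ) ≤ Λ := by
        rw [← hfib p]
        norm_cast
        refine card_le_card fun l hl => ?_
        exact mem_filter.2 ⟨mem_univ _, (mem_filter.1 hl).2.1⟩
      have e1 : ∀ Z, ((Φ Z).card : ℝ) ^ 2 = ∑ l ∈ Fb, ∑ l' ∈ Fb,
          if Acc Z l (S l \ Hv) ∧ Acc Z l' (S l' \ Hv) then (1 : ℝ) else 0 := by
        intro Z
        have : ((Φ Z).card : ℝ) = ∑ l ∈ Fb, if Acc Z l (S l \ Hv) then (1 : ℝ) else 0 := by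
          rw [← sum_filter, sum_const, nsmul_eq_mul, mul_one, filter_filter]
        rw [this, sq, sum_mul_sum]
        refine sum_congr rfl fun l _ => sum_congr rfl fun l' _ => ?_
        by_cases h1 : Acc Z l (S l \ Hv) <;> by_cases h2 : Acc Z l' (S l' \ Hv) <;> simp [h1, h2]
      simp only [e1]
      rw [sum_comm]
      have e2 : ∀ l ∈ Fb, (∑ Z : Fin N ⊕ L × Fin t → Fin κ, ∑ l' ∈ Fb,
          if Acc Z l (S l \ Hv) ∧ Acc Z l' (S l' \ Hv) then (1 : ℝ) else 0) ≤
          ZT * (Λ * q ^ 2 + q * (1 + t * Λ / Γ)) := by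
        intro l hl
        rw [sum_comm]
        have e3 : ∀ l' ∈ Fb, (∑ Z : Fin N ⊕ L × Fin t → Fin κ,
            if Acc Z l (S l \ Hv) ∧ Acc Z l' (S l' \ Hv) then (1 : ℝ) else 0) ≤
            ZT * q ^ 2 + (if l' = l ∨ ¬ Disjoint (S l \ Hv) (S l' \ Hv) then ZT * q else 0) := by
          intro l' _
          rw [← sum_filter, sum_const, nsmul_eq_mul, mul_one]
          by_cases h : l' = l ∨ ¬ Disjoint (S l \ Hv) (S l' \ Hv)
          · simp only [h, if_true]
            have h3 : ((univ.filter fun Z : Fin N ⊕ L × Fin t → Fin κ =>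
                Acc Z l (S l \ Hv) ∧ Acc Z l' (S l' \ Hv)).card : ℝ) ≤ ZT * q := by
              rw [← hacc l]
              norm_cast
              refine card_le_card fun Z hZ => ?_
              exact mem_filter.2 ⟨mem_univ _, (mem_filter.1 hZ).2.1⟩
            have : 0 ≤ ZT * q ^ 2 := by positivity
            linarith
          · simp only [h, if_false, add_zero]
            push Not at h
            have := congrArg (Nat.cast : ℕ → ℝ) (card_acc₂ (κ := κ) (Ne.symm h.1) h.2 (hSH l)
              (hSHt l) (hSH l') (hSHt l'))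
            push_cast at this
            rw [hq, one_div, ← inv_pow, ← pow_mul, mul_comm t 2, inv_pow, ← div_eq_mul_inv,
              le_div_iff₀ (by positivity), this]
        refine (sum_le_sum e3).trans ?_
        rw [sum_add_distrib, sum_const, nsmul_eq_mul, ← sum_filter, sum_const, nsmul_eq_mul]
        have h5 : ((Fb.filter fun l' => l' = l ∨ ¬ Disjoint (S l \ Hv) (S l' \ Hv)).card : ℝ) ≤
            1 + t * Λ / Γ := by
          have h6 : (Fb.filter fun l' => l' = l ∨ ¬ Disjoint (S l \ Hv) (S l' \ Hv)).card ≤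
              1 + (univ.filter fun l' => f l' = p ∧
                ¬ Disjoint (S l \ Hv) (S l' \ Hv)).card := by
            rw [← card_singleton l]
            refine (card_le_card ?_).trans (card_union_le _ _)
            intro l' hl'
            obtain ⟨h1, h2⟩ := mem_filter.1 hl'
            rcases h2 with h2 | h2
            · exact mem_union_left _ (mem_singleton.2 h2)
            · exact mem_union_right _ (mem_filter.2 ⟨mem_univ _, (mem_filter.1 h1).2.1, h2⟩)
          have h7 := card_meeting_le (Γ := Γ) (Gh := Gh) hS hSt hp l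
          have h8 : ((univ.filter fun l' => f l' = p ∧
                ¬ Disjoint (S l \ Hv) (S l' \ Hv)).card : ℝ) ≤ t * Λ / Γ := by
            rw [le_div_iff₀ hΓr, mul_comm]
            exact_mod_cast h7
          have h9 : ((Fb.filter fun l' => l' = l ∨
              ¬ Disjoint (S l \ Hv) (S l' \ Hv)).card : ℝ) ≤
              1 + ((univ.filter fun l' => f l' = p ∧
                ¬ Disjoint (S l \ Hv) (S l' \ Hv)).card : ℝ) := by exact_mod_cast h6
          linarith
        have h10 : (Fb.card : ℝ) * (ZT * q ^ 2) ≤ Λ * (ZT * q ^ 2) :=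
          mul_le_mul_of_nonneg_right hFb (by positivity)
        have h11 := mul_le_mul_of_nonneg_right h5 (by positivity : (0 : ℝ) ≤ ZT * q)
        calc _ ≤ Λ * (ZT * q ^ 2) + (1 + t * Λ / Γ) * (ZT * q) := add_le_add h10 h11
          _ = _ := by ring
      refine (sum_le_sum e2).trans ?_
      rw [sum_const, nsmul_eq_mul]
      have h12 : q * (1 + t * Λ / Γ) ≤ Λ * q ^ 2 := by
        have : 1 + t * Λ / Γ ≤ Λ * q := by
          have := mul_le_mul_of_nonneg_left hκ hΛr.le
          calc 1 + t * Λ / Γ = (Λ : ℝ) * (1 / Λ + t / Γ) := by field_simp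
            _ ≤ Λ * q := this
        calc q * (1 + t * Λ / Γ) ≤ q * (Λ * q) := mul_le_mul_of_nonneg_left this hq0.le
          _ = _ := by ring
      calc (Fb.card : ℝ) * (ZT * (Λ * q ^ 2 + q * (1 + t * Λ / Γ)))
          ≤ Λ * (ZT * (Λ * q ^ 2 + Λ * q ^ 2)) := by
            refine mul_le_mul hFb ?_ (by positivity) hΛr.le
            exact mul_le_mul_of_nonneg_left (by linarith) hZT0.le
        _ = _ := by ring
    -- combine
    have h13 : ((univ.filter fun l => f l = p ∧ good l).card : ℝ) =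
        Λ - (univ.filter fun l => f l = p ∧ ¬ good l).card := by
      have : (univ.filter fun l => f l = p ∧ good l).card +
          (univ.filter fun l => f l = p ∧ ¬ good l).card = Λ := by
        rw [← hfib p, ← card_filter_add_card_filter_not (s := univ.filter fun l => f l = p)
          (p := good), filter_filter, filter_filter]
      rw [← this]; push_cast; ring
    calc _ = (Fintype.card V : ℝ) ^ s * (s / Fintype.card V *
          ((univ.filter fun l => f l = p ∧ good l).card * (ZT * q)) -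
          (s / Fintype.card V) ^ 2 * (ZT * (2 * Λ ^ 2 * q ^ 2))) := by
            rw [h13, hμ, hq]; field_simp; ring
      _ ≤ (Fintype.card V : ℝ) ^ s * (s / Fintype.card V * ∑ Z, ((Φ Z).card : ℝ) -
          (s / Fintype.card V) ^ 2 * ∑ Z, ((Φ Z).card : ℝ) ^ 2) := by
            refine mul_le_mul_of_nonneg_left ?_ (by positivity)
            rw [m1]
            have := mul_le_mul_of_nonneg_left m2
              (by positivity : (0 : ℝ) ≤ (s / Fintype.card V) ^ 2)
            linarith
      _ = ∑ Z, (Fintype.card V : ℝ) ^ s * (s * ((Φ Z).card / Fintype.card V) -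
        (s * ((Φ Z).card / Fintype.card V)) ^ 2) := by
            rw [← mul_sum, sum_sub_distrib, mul_sum, mul_sum]
            congr 2
            · refine sum_congr rfl fun Z _ => ?_
              ring
            · refine sum_congr rfl fun Z _ => ?_
              ring
      _ ≤ _ := sum_le_sum fun Z _ => step1 Z
  -- sum over the points
  have hswap : ∑ O : Fin s → V, ∑ Z : Fin N ⊕ L × Fin t → Fin κ, ((Dset f π Sf O Z).card : ℝ) =
      ∑ p : P, ∑ Z : Fin N ⊕ L × Fin t → Fin κ,
        ((univ.filter fun O : Fin s → V => p ∈ Dset f π Sf O Z).card : ℝ) := by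
    have e1 : ∀ (O : Fin s → V) (Z : Fin N ⊕ L × Fin t → Fin κ),
        ((Dset f π Sf O Z).card : ℝ) = ∑ p : P, if p ∈ Dset f π Sf O Z then (1 : ℝ) else 0 := by
      intro O Z
      rw [← sum_filter, sum_const, nsmul_eq_mul, mul_one]
      congr 2
      ext p; simp
    have e2 : ∀ (p : P) (Z : Fin N ⊕ L × Fin t → Fin κ),
        ((univ.filter fun O : Fin s → V => p ∈ Dset f π Sf O Z).card : ℝ) =
        ∑ O : Fin s → V, if p ∈ Dset f π Sf O Z then (1 : ℝ) else 0 := by
      intro p Z
      rw [← sum_filter, sum_const, nsmul_eq_mul, mul_one]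
    simp only [e1, e2]
    rw [sum_comm]
    rw [sum_congr rfl fun Z _ => sum_comm]
    rw [sum_comm]
  rw [hswap]
  calc _ ≤ ∑ p ∈ univ \ C, (Fintype.card V : ℝ) ^ s * ZT * (μ - 2 * μ ^ 2 -
        (univ.filter fun l => f l = p ∧ ¬ good l).card *
          (s / (Fintype.card V * (κ : ℝ) ^ t))) := by
        rw [← mul_sum]
        refine mul_le_mul_of_nonneg_left ?_ (by positivity)
        rw [sum_sub_distrib, sum_const, nsmul_eq_mul, ← sum_mul]
        have h14 : ((univ \ C).card : ℝ) = Fintype.card P - C.card := by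
          rw [card_sdiff_of_subset (subset_univ C), card_univ, Nat.cast_sub (card_le_univ C)]
        rw [h14]
        have h15 : (∑ p ∈ univ \ C, ((univ.filter fun l => f l = p ∧ ¬ good l).card : ℝ)) ≤
            ((univ.filter fun l => ¬ good l).card : ℝ) := by
          have : (univ.filter fun l => ¬ good l).card =
              ∑ p : P, (univ.filter fun l => f l = p ∧ ¬ good l).card := by
            rw [card_eq_sum_card_fiberwise (f := f) (t := univ) (fun _ _ => by simp)]
            refine sum_congr rfl fun p _ => ?_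
            rw [filter_filter]
            congr 1
            ext l; simp only [mem_filter, mem_univ, true_and]; tauto
          rw [this]
          push_cast
          exact sum_le_sum_of_subset_of_nonneg (subset_univ _) fun _ _ _ => by positivity
        have h16 := mul_le_mul_of_nonneg_right h15
          (by positivity : (0 : ℝ) ≤ (s / (Fintype.card V * (κ : ℝ) ^ t)))
        linarith
    _ ≤ ∑ p ∈ univ \ C, ∑ Z : Fin N ⊕ L × Fin t → Fin κ,
        ((univ.filter fun O : Fin s → V => p ∈ Dset f π Sf O Z).card : ℝ) :=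
        sum_le_sum fun p hp => key p (mem_sdiff.1 hp).2
    _ ≤ _ := sum_le_sum_of_subset_of_nonneg (subset_univ _) fun _ _ _ =>
        sum_nonneg fun _ _ => by positivity

end

end Pool.Agent.Helper1.KU
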