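import Pool.Agent.Helper1.KU.Assembly
import Pool.Agent.Helper62.KU.Lines
import Pool.Agent.Helper62.KU.Params

/-!
# No Kolmogorov-Uspenskii machine simulates `mach` in real time
-/

namespace Pool.Agent.Helper1.KU

theorem not_realTimeSimulates (K : KUM) : ¬ RealTimeSimulates K mach := by
  intro h
  obtain ⟨F, hF, hon⟩ := H29.KU.online K h
  obtain ⟨c₀, hc₀⟩ := Helper17.KU.exists_card_wordVis_le K F
  have hc : ∀ (w : List Cmd) (c : Mic K.D K.n),
      (wordVis K F w c).card ≤ (c₀ + 1) * w.length ∧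
      (wordRun K F w c).size ≤ c.size + (c₀ + 1) * w.length := by
    intro w c
    have h1 : c₀ * w.length ≤ (c₀ + 1) * w.length := Nat.mul_le_mul_right _ (Nat.le_succ _)
    exact ⟨(hc₀ w c).1.trans h1, (hc₀ w c).2.trans (Nat.add_le_add_left h1 _)⟩
  obtain ⟨ℓ, k, E₀, w, g, κ₀, E, n, t, κ, Γ, Gh, u₁, B₂, N, hE, hn, ht, hκ, hΓ, hGh, hu₁, hB₂,
    hN, p1, p2, p3, p4, p5, p6, p7, p8, p9, p10, p11, p12, p13, p14, p15⟩ :=
    Helper62.KU.exists_params (c₀ + 1) K.D ((K.r + 1) * F) K.n (Nat.succ_pos _)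
  have hkE : k ≤ E := by
    rw [hE]
    exact p3.trans (Nat.le_mul_of_pos_right _ (by positivity))
  obtain ⟨line, hline⟩ := Helper62.KU.exists_lines E k (by omega) hkE
  exact assembly K F (c₀ + 1) hF (Nat.succ_pos _) hon hc hE hn ht hκ hΓ hGh hu₁ hB₂ hN p1 p2 p3
    p4 p5 p6 p7 p8 p9 p10 p11 p12 p13 p14 p15 line hline

end Pool.Agent.Helper1.KU
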