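import Pool.Agent.Helper1.KU.Exec

/-!
# The storage modification machine

Pointer letters `0, 1, 2`. At the centre they are used as registers: `X` (current vertex),
`Y` (marked vertex), `T` (top of the chain of vertices). Each of the eight commands is coded by
three input bits. After each command the machine writes the bit `X.0 = X`.
-/

namespace Pool.Agent.Helper1.KU

/-- Program lines: `0` root of the reading tree, `1, 2` second level, `3, …, 6` third level,
`7, …, 14` the commands, `15` the test, `16`, `17` the outputs. -/
def mach : SMM where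
  d := 3
  n := 18
  start := 0
  prog := ![
    .read fun b => if b then 2 else 1,
    .read fun b => if b then 4 else 3,
    .read fun b => if b then 6 else 5,
    .read fun b => if b then 8 else 7,
    .read fun b => if b then 10 else 9,
    .read fun b => if b then 12 else 11,
    .read fun b => if b then 14 else 13,
    .set [0] [2] 15,
    .set [0] [0, 0] 15,
    .set [0] [0, 1] 15,
    .set [0] [0, 2] 15,
    .set [1] [0] 15,
    .set [0, 0] [1] 15,
    .set [0, 1] [1] 15,
    .new [2] 15,
    .test [0, 0] [0] 16 17,
    .write true 0,
    .write false 0]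

/-- The storage of the machine. -/
structure AMem where
  ptr : ℕ → Fin 3 → ℕ
  size : ℕ

namespace AMem

def init : AMem := ⟨fun _ _ => 0, 1⟩

/-- Redirect the edge `a` of `u` to `y`. -/
def set (s : AMem) (u : ℕ) (a : Fin 3) (y : ℕ) : AMem :=
  { s with ptr := Function.update s.ptr u (Function.update (s.ptr u) a y) }

/-- The effect of a command. -/
def cmd (s : AMem) : Cmd → AMem
  | .H => s.set 0 0 (s.ptr 0 2)
  | .W0 => s.set 0 0 (s.ptr (s.ptr 0 0) 0)
  | .W1 => s.set 0 0 (s.ptr (s.ptr 0 0) 1)
  | .N => s.set 0 0 (s.ptr (s.ptr 0 0) 2)
  | .K => s.set 0 1 (s.ptr 0 0)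
  | .S0 => s.set (s.ptr 0 0) 0 (s.ptr 0 1)
  | .S1 => s.set (s.ptr 0 0) 1 (s.ptr 0 1)
  | .A => (AMem.mk (Function.update s.ptr s.size (fun _ => s.ptr 0 2)) (s.size + 1)).set
      0 2 s.size

/-- The output bit after a command. -/
def label (s : AMem) : Bool := decide (s.ptr (s.ptr 0 0) 0 = s.ptr 0 0)

/-- The effect of a list of commands. -/
def cmds (s : AMem) (w : List Cmd) : AMem := w.foldl cmd s

end AMem

/-- The bits of a list of commands, as a stream (followed by the stream `false, false, …`). -/
def bitsOf (w : List Cmd) : ℕ → Bool := fun i =>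
  match w[i / 3]? with
  | some g => g.bits (i % 3)
  | none => false

/-- The last output bit after a nonempty list of commands. -/
def lastOut (w : List Cmd) : Bool := (AMem.init.cmds w).label

/-- The query for the leaf `p`. -/
def query {n : ℕ} (p : Fin n → Bool) : List Cmd :=
  Cmd.H :: ((List.ofFn p).map Cmd.walk ++ [Cmd.W0])

end Pool.Agent.Helper1.KU
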