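import Pool.Agent.Helper1.KU.Cluster

/-!
# Random samples
-/

namespace Pool.Agent.Helper1.KU

open Finset

section Basic

/-- Functions that vanish on a given set. -/
theorem card_vanish {U : Type} [Fintype U] [DecidableEq U] {κ : ℕ} [NeZero κ] (T : Finset U) :
    (univ.filter fun Z : U → Fin κ => ∀ u ∈ T, Z u = 0).card * κ ^ T.card =
      κ ^ Fintype.card U := by
  have h1 : (univ.filter fun Z : U → Fin κ => ∀ u ∈ T, Z u = 0) =
      Fintype.piFinset (fun u => if u ∈ T then ({0} : Finset (Fin κ)) else univ) := by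
    ext Z
    simp only [mem_filter, mem_univ, true_and, Fintype.mem_piFinset]
    refine forall_congr' fun u => ?_
    by_cases h : u ∈ T <;> simp [h]
  rw [h1, Fintype.card_piFinset]
  have h2 : ∏ u : U, (if u ∈ T then ({0} : Finset (Fin κ)) else univ).card =
      ∏ u ∈ univ \ T, κ := by
    rw [← prod_sdiff (subset_univ T)]
    have : ∏ u ∈ T, (if u ∈ T then ({0} : Finset (Fin κ)) else univ).card = 1 :=
      prod_eq_one fun u hu => by simp [hu]
    rw [this, mul_one]
    refine prod_congr rfl fun u hu => ?_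
    have := (mem_sdiff.1 hu).2
    simp [this]
  rw [h2, prod_const, ← pow_add, card_sdiff_add_card_eq_card (subset_univ T), card_univ]

/-- Functions that avoid a given set of values. -/
theorem card_avoid {V : Type} [Fintype V] [DecidableEq V] (s : ℕ) (A : Finset V) :
    (univ.filter fun O : Fin s → V => ∀ τ, O τ ∉ A).card = (Fintype.card V - A.card) ^ s := by
  have h1 : (univ.filter fun O : Fin s → V => ∀ τ, O τ ∉ A) =
      Fintype.piFinset (fun _ => Aᶜ) := by
    ext O
    simp [Fintype.mem_piFinset]
  rw [h1, Fintype.card_piFinset, prod_const, card_compl, card_univ, Fintype.card_fin]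

theorem one_sub_pow_le {x : ℝ} (hx : 0 ≤ x) (hx1 : x ≤ 1) (s : ℕ) :
    (1 - x) ^ s ≤ 1 - s * x + (s * x) ^ 2 := by
  induction s with
  | zero => simp
  | succ s ih =>
    have h1 : (1 - x) ^ (s + 1) ≤ (1 - x) * (1 - s * x + (s * x) ^ 2) := by
      rw [pow_succ']
      exact mul_le_mul_of_nonneg_left ih (by linarith)
    refine h1.trans ?_
    push_cast
    have hs : (0 : ℝ) ≤ s := Nat.cast_nonneg s
    have h3 : 0 ≤ (s : ℝ) ^ 2 * x ^ 3 := by positivity
    have h4 : 0 ≤ (s : ℝ) * x ^ 2 := by positivity
    have h5 : 0 ≤ x ^ 2 := by positivity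
    nlinarith [h3, h4, h5]

/-- Number of samples that meet a set: lower bound. -/
theorem card_meet_ge {V : Type} [Fintype V] [DecidableEq V] [Nonempty V] (s : ℕ)
    (A : Finset V) :
    (Fintype.card V : ℝ) ^ s * (s * (A.card / Fintype.card V) -
      (s * (A.card / Fintype.card V)) ^ 2) ≤
    ((univ.filter fun O : Fin s → V => ∃ τ, O τ ∈ A).card : ℝ) := by
  have hV : (0 : ℝ) < Fintype.card V := by exact_mod_cast Fintype.card_pos
  have hA : (A.card : ℝ) ≤ Fintype.card V := by exact_mod_cast card_le_univ A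
  have h1 : (univ.filter fun O : Fin s → V => ∃ τ, O τ ∈ A).card +
      (univ.filter fun O : Fin s → V => ∀ τ, O τ ∉ A).card = Fintype.card V ^ s := by
    rw [← Fintype.card_fin s, ← Fintype.card_fun, Fintype.card_fin]
    rw [← card_univ, ← card_filter_add_card_filter_not (s := univ)
      (p := fun O : Fin s → V => ∃ τ, O τ ∈ A)]
    congr 2
    ext O; simp
  have h2 : ((univ.filter fun O : Fin s → V => ∀ τ, O τ ∉ A).card : ℝ) =
      (Fintype.card V : ℝ) ^ s * (1 - A.card / Fintype.card V) ^ s := by
    rw [card_avoid, ← mul_pow]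
    push_cast [Nat.cast_sub (card_le_univ A)]
    congr 1
    field_simp
  have h3 : ((univ.filter fun O : Fin s → V => ∃ τ, O τ ∈ A).card : ℝ) =
      (Fintype.card V : ℝ) ^ s * (1 - (1 - A.card / Fintype.card V) ^ s) := by
    have := congrArg (Nat.cast : ℕ → ℝ) h1
    push_cast at this
    rw [h2] at this
    linarith
  rw [h3]
  refine mul_le_mul_of_nonneg_left ?_ (by positivity)
  have hx : (0 : ℝ) ≤ A.card / Fintype.card V := by positivity
  have hx1 : (A.card : ℝ) / Fintype.card V ≤ 1 := (div_le_one hV).2 hA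
  have := one_sub_pow_le hx hx1 s
  linarith

/-- Number of samples that meet a point: upper bound. -/
theorem card_meet_le {V : Type} [Fintype V] [DecidableEq V] [Nonempty V] (s : ℕ) (v : V) :
    ((univ.filter fun O : Fin s → V => ∃ τ, O τ = v).card : ℝ) ≤
      (Fintype.card V : ℝ) ^ s * (s / Fintype.card V) := by
  have hV : (0 : ℝ) < Fintype.card V := by exact_mod_cast Fintype.card_pos
  have h1 : (univ.filter fun O : Fin s → V => ∃ τ, O τ = v).card +
      (univ.filter fun O : Fin s → V => ∀ τ, O τ ∉ ({v} : Finset V)).card =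
      Fintype.card V ^ s := by
    rw [← Fintype.card_fin s, ← Fintype.card_fun, Fintype.card_fin]
    rw [← card_univ, ← card_filter_add_card_filter_not (s := univ)
      (p := fun O : Fin s → V => ∃ τ, O τ = v)]
    congr 2
    ext O; simp
  have hone : 1 ≤ Fintype.card V := Fintype.card_pos
  have h2 : ((univ.filter fun O : Fin s → V => ∀ τ, O τ ∉ ({v} : Finset V)).card : ℝ) =
      (Fintype.card V : ℝ) ^ s * (1 - 1 / Fintype.card V) ^ s := by
    rw [card_avoid, ← mul_pow, card_singleton]
    push_cast [Nat.cast_sub hone]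
    congr 1
    field_simp
  have h3 : ((univ.filter fun O : Fin s → V => ∃ τ, O τ = v).card : ℝ) =
      (Fintype.card V : ℝ) ^ s * (1 - (1 - 1 / Fintype.card V) ^ s) := by
    have := congrArg (Nat.cast : ℕ → ℝ) h1
    push_cast at this
    rw [h2] at this
    linarith
  rw [h3]
  refine mul_le_mul_of_nonneg_left ?_ (by positivity)
  have hle : (1 : ℝ) / Fintype.card V ≤ 1 := by
    rw [div_le_one hV]; exact_mod_cast hone
  have := one_add_mul_le_pow (a := -(1 / (Fintype.card V : ℝ))) (by linarith) s
  rw [← sub_eq_add_neg] at this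
  have e : (s : ℝ) / Fintype.card V = s * (1 / Fintype.card V) := by ring
  rw [e]
  linarith

end Basic

section Acc

variable {L : Type} [Fintype L] [DecidableEq L]

/-- The set of ids and dummies that have to be sampled for the leaf `l`. -/
def accSet (N t : ℕ) (l : L) (A : Finset ℕ) : Finset (Fin N ⊕ L × Fin t) :=
  (univ.filter fun y : Fin N => (y : ℕ) ∈ A).disjSum
    (univ.filter fun q : L × Fin t => q.1 = l ∧ A.card + q.2 < t)

theorem card_accSet {N t : ℕ} (l : L) {A : Finset ℕ} (hA : A ⊆ range N) (ht : A.card ≤ t) :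
    (accSet N t l A).card = t := by
  have h1 : (univ.filter fun y : Fin N => (y : ℕ) ∈ A).card = A.card := by
    rw [← card_map Fin.valEmbedding]
    congr 1
    ext y
    simp only [mem_map, mem_filter, mem_univ, true_and, Fin.valEmbedding_apply]
    constructor
    · rintro ⟨z, hz, rfl⟩; exact hz
    · intro hy; exact ⟨⟨y, mem_range.1 (hA hy)⟩, hy, rfl⟩
  have h2 : (univ.filter fun q : L × Fin t => q.1 = l ∧ A.card + q.2 < t).card =
      t - A.card := by
    have : (univ.filter fun q : L × Fin t => q.1 = l ∧ A.card + q.2 < t) =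
        (univ.filter fun i : Fin t => A.card + i < t).map
          ⟨fun i => (l, i), fun i j h => (Prod.mk.inj h).2⟩ := by
      ext ⟨l', i⟩
      simp only [mem_filter, mem_univ, true_and, mem_map]
      constructor
      · rintro ⟨rfl, h⟩; exact ⟨i, h, rfl⟩
      · rintro ⟨j, h, h'⟩
        have h1 : l = l' := congrArg Prod.fst h'
        have h2 : j = i := congrArg Prod.snd h'
        subst h1; subst h2
        exact ⟨rfl, h⟩
    rw [this, card_map]
    have h3 : (univ.filter fun i : Fin t => A.card + i < t).card =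
        ((range t).filter fun i => A.card + i < t).card := by
      rw [← card_map Fin.valEmbedding]
      congr 1
      ext y
      simp only [mem_map, mem_filter, mem_univ, true_and, Fin.valEmbedding_apply, mem_range]
      constructor
      · rintro ⟨z, hz, rfl⟩; exact ⟨z.2, hz⟩
      · intro hy; exact ⟨⟨y, hy.1⟩, hy.2, rfl⟩
    rw [h3]
    have h4 : ((range t).filter fun i => A.card + i < t) = range (t - A.card) := by
      ext i; simp only [mem_filter, mem_range]; omega
    rw [h4, card_range]
  rw [accSet, card_disjSum, h1, h2]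
  omega

theorem disjoint_accSet {N t : ℕ} {l l' : L} (hl : l ≠ l') {A A' : Finset ℕ}
    (hA : Disjoint A A') : Disjoint (accSet N t l A) (accSet N t l' A') := by
  rw [disjoint_left]
  rintro (y | q) h1 h2
  · simp only [accSet, inl_mem_disjSum, mem_filter, mem_univ, true_and] at h1 h2
    exact disjoint_left.1 hA h1 h2
  · simp only [accSet, inr_mem_disjSum, mem_filter, mem_univ, true_and] at h1 h2
    exact hl (h1.1.symm.trans h2.1)

/-- Acceptance of the leaf `l` with the set `A` of newly visited ids. -/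
def Acc {N t κ : ℕ} [NeZero κ] (Z : Fin N ⊕ L × Fin t → Fin κ) (l : L) (A : Finset ℕ) : Prop :=
  ∀ u ∈ accSet N t l A, Z u = 0

instance {N t κ : ℕ} [NeZero κ] (Z : Fin N ⊕ L × Fin t → Fin κ) (l : L) (A : Finset ℕ) :
    Decidable (Acc Z l A) := inferInstanceAs (Decidable (∀ u ∈ accSet N t l A, Z u = 0))

theorem card_acc {N t κ : ℕ} [NeZero κ] (l : L) {A : Finset ℕ} (hA : A ⊆ range N)
    (ht : A.card ≤ t) :
    (univ.filter fun Z : Fin N ⊕ L × Fin t → Fin κ => Acc Z l A).card * κ ^ t =
      κ ^ Fintype.card (Fin N ⊕ L × Fin t) := by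
  have := card_vanish (κ := κ) (accSet N t l A)
  rwa [card_accSet l hA ht] at this

theorem card_acc₂ {N t κ : ℕ} [NeZero κ] {l l' : L} (hl : l ≠ l') {A A' : Finset ℕ}
    (hd : Disjoint A A') (hA : A ⊆ range N) (ht : A.card ≤ t) (hA' : A' ⊆ range N)
    (ht' : A'.card ≤ t) :
    (univ.filter fun Z : Fin N ⊕ L × Fin t → Fin κ => Acc Z l A ∧ Acc Z l' A').card *
      κ ^ (2 * t) = κ ^ Fintype.card (Fin N ⊕ L × Fin t) := by
  have := card_vanish (κ := κ) (accSet N t l A ∪ accSet N t l' A')
  rw [card_union_of_disjoint (disjoint_accSet hl hd), card_accSet l hA ht,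
    card_accSet l' hA' ht', ← two_mul] at this
  rw [← this]
  have e : (univ.filter fun Z : Fin N ⊕ L × Fin t → Fin κ => Acc Z l A ∧ Acc Z l' A') =
      univ.filter fun Z : Fin N ⊕ L × Fin t → Fin κ =>
        ∀ u ∈ accSet N t l A ∪ accSet N t l' A', Z u = 0 := by
    ext Z
    simp only [mem_filter, mem_univ, true_and]
    constructor
    · rintro ⟨h1, h2⟩ u hu
      rcases mem_union.1 hu with hu | hu
      · exact h1 u hu
      · exact h2 u hu
    · intro h
      exact ⟨fun u hu => h u (mem_union_left _ hu), fun u hu => h u (mem_union_right _ hu)⟩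
  rw [e]

end Acc

end Pool.Agent.Helper1.KU
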