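import Pool.Agent.Helper1.KU.Core
import Pool.Agent.Helper1.KU.Average
import Pool.Agent.Helper17.KU.Local

/-!
# The walks of a Kolmogorov-Uspenskii machine, and the history of the epochs
-/

namespace Pool.Agent.Helper1.KU

open Finset

/-! ### Start states -/

/-- State, head and size. -/
abbrev StK (K : KUM) := Fin K.n × ℕ × ℕ

/-- The configuration with the given start state and storage. -/
def mic (K : KUM) (σ : StK K) (m : Edges K.D) : Mic K.D K.n := ⟨σ.1, σ.2.1, σ.2.2, m, 0, none⟩

/-- The start state of a configuration. -/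
def stOf {K : KUM} (c : Mic K.D K.n) : StK K := (c.state, c.head, c.size)

theorem mic_stOf {K : KUM} (c : Mic K.D K.n) : mic K (stOf c) c.edges = c.reset := rfl

theorem wordVis_reset (K : KUM) (F : ℕ) (w : List Cmd) (c : Mic K.D K.n) :
    wordVis K F w c.reset = wordVis K F w c := by
  cases w with
  | nil => rfl
  | cons g w => rfl

theorem wordRun_reset (K : KUM) (F : ℕ) {w : List Cmd} (hw : w ≠ []) (c : Mic K.D K.n) :
    wordRun K F w c.reset = wordRun K F w c := by
  cases w with
  | nil => exact absurd rfl hw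
  | cons g w => rfl

/-! ### Query words -/

/-- First part. -/
def w1 {E2 : ℕ} (v : Fin E2 → Bool) : List Cmd := Cmd.H :: (List.ofFn v).map Cmd.walk

/-- Second part. -/
def w2 {k : ℕ} (a : Fin k → Bool) : List Cmd := (List.ofFn a).map Cmd.walk

/-- Third part. -/
def w3 {ℓ : ℕ} (j : Fin ℓ → Bool) : List Cmd := (List.ofFn j).map Cmd.walk ++ [Cmd.W0]

theorem length_w1 {E2 : ℕ} (v : Fin E2 → Bool) : (w1 v).length = E2 + 1 := by simp [w1]
theorem length_w2 {k : ℕ} (a : Fin k → Bool) : (w2 a).length = k := by simp [w2]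
theorem length_w3 {ℓ : ℕ} (j : Fin ℓ → Bool) : (w3 j).length = ℓ + 1 := by simp [w3]

theorem query_append {E2 k ℓ : ℕ} (v : Fin E2 → Bool) (a : Fin k → Bool) (j : Fin ℓ → Bool) :
    query (Fin.append (Fin.append v a) j) = w1 v ++ w2 a ++ w3 j := by
  unfold query w1 w2 w3
  rw [List.ofFn_fin_append, List.ofFn_fin_append]
  simp

section

variable (K : KUM) (F c₁ : ℕ)

/-- The walks in a storage. -/
def walks (hc : ∀ (w : List Cmd) (c : Mic K.D K.n), (wordVis K F w c).card ≤ c₁ * w.length)
    (E2 k : ℕ) {ℓ : ℕ} (j : Fin ℓ → Bool) :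
    Walks ((Fin E2 → Bool) × (Fin k → Bool)) (Fin E2 → Bool)
      (Fin K.D → Option (ℕ × Fin K.D)) (StK K) (c₁ * (ℓ + 1)) where
  π := Prod.fst
  vis1 σ v m := wordVis K F (w1 v) (mic K σ m)
  vis2 σ l m := wordVis K F (w1 l.1 ++ w2 l.2) (mic K σ m)
  vis3 σ l m := wordVis K F (w1 l.1 ++ w2 l.2 ++ w3 j) (mic K σ m)
  ans σ l m := (wordRun K F (w1 l.1 ++ w2 l.2 ++ w3 j) (mic K σ m)).bit.getD false
  sub12 σ l m := by
    rw [Helper17.KU.wordVis_append]
    exact subset_union_left
  sub23 σ l m := by
    rw [Helper17.KU.wordVis_append K F (w1 l.1 ++ w2 l.2)]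
    exact subset_union_left
  cert2 σ l m m' h :=
    (Helper17.KU.wordRun_congr K F (w1 l.1 ++ w2 l.2) (mic K σ m) m' h).1
  cert3 σ l m m' h := by
    have := Helper17.KU.wordRun_congr K F (w1 l.1 ++ w2 l.2 ++ w3 j) (mic K σ m) m' h
    exact ⟨this.1, congrArg (fun b => Option.getD b false) this.2.2.2.2.1⟩
  size3 σ l m := by
    rw [Helper17.KU.wordVis_append K F (w1 l.1 ++ w2 l.2)]
    refine (card_le_card (t := wordVis K F (w3 j) (wordRun K F (w1 l.1 ++ w2 l.2) (mic K σ m)))
      ?_).trans ((hc _ _).trans_eq (by rw [length_w3]))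
    intro u hu
    obtain ⟨h1, h2⟩ := mem_sdiff.1 hu
    rcases mem_union.1 h1 with h | h
    · exact absurd h h2
    · exact h

end

/-! ### History -/

section History

variable {R : ℕ} {P : Fin R → Type} (u₀ : List Cmd) (U : ∀ j, (P j → Bool) → List Cmd)
  (X : ∀ j, P j → Bool)

/-- The word of the epoch `i`. -/
def uw (i : ℕ) : List Cmd := if h : i < R then U ⟨i, h⟩ (X ⟨i, h⟩) else []

/-- The epochs `i - 1, …, 0`. -/
def low (i : ℕ) : List Cmd := (List.range i).reverse.flatMap (uw U X)

/-- The construction and the epochs `R - 1, …, i`. -/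
def high (i : ℕ) : List Cmd := u₀ ++ (List.range' i (R - i)).reverse.flatMap (uw U X)

theorem low_succ (i : ℕ) : low U X (i + 1) = uw U X i ++ low U X i := by
  unfold low
  rw [List.range_succ, List.reverse_append]
  simp

theorem high_eq {i : ℕ} (hi : i < R) : high u₀ U X i = high u₀ U X (i + 1) ++ uw U X i := by
  unfold high
  have : R - i = (R - (i + 1)) + 1 := by omega
  rw [this, List.range'_succ]
  simp

theorem high_append_low {i : ℕ} (hi : i ≤ R) :
    high u₀ U X i ++ low U X i =
      u₀ ++ ((List.finRange R).reverse).flatMap (fun j => U j (X j)) := by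
  have h0 : high u₀ U X i ++ low U X i = high u₀ U X 0 := by
    induction i with
    | zero => simp [low]
    | succ i ih =>
      rw [← ih (by omega), high_eq u₀ U X (by omega : i < R), low_succ, List.append_assoc]
  rw [h0]
  unfold high
  congr 1
  rw [Nat.sub_zero, ← List.range_eq_range', ← List.map_coe_finRange_eq_range, ← List.map_reverse,
    List.flatMap_map]
  congr 1
  funext j
  simp [uw]

theorem uw_update {j : Fin R} [DecidableEq (Fin R)] (Y : P j → Bool) {i : ℕ} (hi : i ≠ j) :
    uw U (Function.update X j Y) i = uw U X i := by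
  unfold uw
  split_ifs with h
  · rw [Function.update_of_ne]
    intro hj
    exact hi (by rw [← hj])
  · rfl

theorem low_update {j : Fin R} (Y : P j → Bool) :
    low U (Function.update X j Y) j = low U X j := by
  unfold low
  simp only [List.flatMap]
  congr 1
  refine List.map_congr_left fun i hi => ?_
  refine uw_update U X Y ?_
  have := List.mem_range.1 (List.mem_reverse.1 hi)
  omega

theorem high_update {j : Fin R} (Y : P j → Bool) :
    high u₀ U (Function.update X j Y) (j + 1) = high u₀ U X (j + 1) := by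
  unfold high
  simp only [List.flatMap]
  congr 2
  refine List.map_congr_left fun i hi => ?_
  refine uw_update U X Y ?_
  have := List.mem_range'.1 (List.mem_reverse.1 hi)
  omega

end History

end Pool.Agent.Helper1.KU
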